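import Mathlib

/-!
# Interpolation for real matrices between `(r, ∞)` and `(2, 2)`
-/

set_option autoImplicit false
open Finset

namespace Pool.Schatten.Rnd

/-- complex powers of nonnegative reals, zero at zero -/
noncomputable def cp (x : ℝ) (w : ℂ) : ℂ := if x = 0 then 0 else Complex.exp (Real.log x * w)

lemma norm_cp {x : ℝ} (hx : 0 ≤ x) {w : ℂ} (hw : 0 < w.re) : ‖cp x w‖ = x ^ w.re := by
  unfold cp
  split_ifs with h
  · rw [h, norm_zero, Real.zero_rpow hw.ne']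
  · rw [Complex.norm_exp, Complex.re_ofReal_mul, Real.rpow_def_of_pos (lt_of_le_of_ne hx (Ne.symm h))]

lemma cp_real {x : ℝ} (hx : 0 ≤ x) {s : ℝ} (hs : 0 < s) : cp x (s : ℂ) = ((x ^ s : ℝ) : ℂ) := by
  unfold cp
  split_ifs with h
  · rw [h, Real.zero_rpow hs.ne', Complex.ofReal_zero]
  · rw [Real.rpow_def_of_pos (lt_of_le_of_ne hx (Ne.symm h))]
    push_cast
    rfl

lemma differentiable_cp (x : ℝ) {g : ℂ → ℂ} (hg : Differentiable ℂ g) :
    Differentiable ℂ (fun z => cp x (g z)) := by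
  unfold cp
  split_ifs with h
  · exact differentiable_const _
  · exact ((differentiable_const _).mul hg).cexp

variable {κ ι : Type} [Fintype κ] [Fintype ι]

/-- the endpoint bound for complex vectors -/
lemma complex_sup {M : κ → ι → ℝ} {R r : ℝ}
    (h0 : ∀ (x : ι → ℝ) (k : κ), |∑ j, M k j * x j| ≤ R * (∑ j, |x j| ^ r) ^ (1 / r))
    (hR : 0 ≤ R) (hr : 0 < r) (x : ι → ℂ) (k : κ) :
    ‖∑ j, (M k j : ℂ) * x j‖ ≤ R * (∑ j, ‖x j‖ ^ r) ^ (1 / r) := by
  set S : ℂ := ∑ j, (M k j : ℂ) * x j with hS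
  rcases eq_or_ne S 0 with hz | hz
  · rw [hz, norm_zero]
    exact mul_nonneg hR (Real.rpow_nonneg (sum_nonneg fun j _ => Real.rpow_nonneg (norm_nonneg _) _) _)
  have hn : 0 < ‖S‖ := norm_pos_iff.2 hz
  set c : ℂ := (starRingEnd ℂ) S / ‖S‖ with hc
  have hcn : ‖c‖ = 1 := by
    rw [hc, norm_div, Complex.norm_real, norm_norm, RCLike.norm_conj, div_self hn.ne']
  have hcS : c * S = (‖S‖ : ℂ) := by
    rw [hc, div_mul_eq_mul_div, mul_comm, Complex.mul_conj, Complex.normSq_eq_norm_sq]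
    have : (‖S‖ : ℂ) ≠ 0 := by exact_mod_cast hn.ne'
    field_simp
    push_cast
    ring
  have e1 : ‖S‖ = ∑ j, M k j * (c * x j).re := by
    have e2 : (c * S).re = ‖S‖ := by rw [hcS, Complex.ofReal_re]
    rw [← e2, hS, mul_sum, Complex.re_sum]
    apply sum_congr rfl
    intro j _
    rw [show c * ((M k j : ℂ) * x j) = (M k j : ℂ) * (c * x j) by ring, Complex.re_ofReal_mul]
  rw [e1]
  refine (le_abs_self _).trans ((h0 _ k).trans ?_)
  apply mul_le_mul_of_nonneg_left _ hR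
  apply Real.rpow_le_rpow (sum_nonneg fun j _ => Real.rpow_nonneg (abs_nonneg _) _) _ (by positivity)
  apply sum_le_sum
  intro j _
  apply Real.rpow_le_rpow (abs_nonneg _) _ hr.le
  calc |(c * x j).re| ≤ ‖c * x j‖ := Complex.abs_re_le_norm _
    _ = ‖x j‖ := by rw [norm_mul, hcn, one_mul]

lemma complex_two {M : κ → ι → ℝ}
    (h1 : ∀ x : ι → ℝ, ∑ k, (∑ j, M k j * x j) ^ 2 ≤ ∑ j, x j ^ 2) (x : ι → ℂ) :
    ∑ k, ‖∑ j, (M k j : ℂ) * x j‖ ^ 2 ≤ ∑ j, ‖x j‖ ^ 2 := by
  have e1 : ∀ z : ℂ, ‖z‖ ^ 2 = z.re ^ 2 + z.im ^ 2 := by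
    intro z
    rw [← Complex.normSq_eq_norm_sq, Complex.normSq_apply]
    ring
  have e2 : ∀ k, (∑ j, (M k j : ℂ) * x j).re = ∑ j, M k j * (x j).re := by
    intro k
    rw [Complex.re_sum]
    exact sum_congr rfl fun j _ => Complex.re_ofReal_mul _ _
  have e3 : ∀ k, (∑ j, (M k j : ℂ) * x j).im = ∑ j, M k j * (x j).im := by
    intro k
    rw [Complex.im_sum]
    exact sum_congr rfl fun j _ => Complex.im_ofReal_mul _ _
  simp only [e1, e2, e3, sum_add_distrib]
  exact add_le_add (h1 _) (h1 _)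

/-- **interpolation** -/
theorem interp {M : κ → ι → ℝ} {R r : ℝ}
    (h0 : ∀ (x : ι → ℝ) (k : κ), |∑ j, M k j * x j| ≤ R * (∑ j, |x j| ^ r) ^ (1 / r))
    (h1 : ∀ x : ι → ℝ, ∑ k, (∑ j, M k j * x j) ^ 2 ≤ ∑ j, x j ^ 2)
    (hR : 0 ≤ R) (hr : 0 < r) {X : ι → ℝ} {Y : κ → ℝ} (hX : ∀ j, 0 ≤ X j) (hY : ∀ k, 0 ≤ Y k)
    {t : ℝ} (ht0 : 0 ≤ t) (ht1 : t ≤ 1) (hXs : 0 < ∑ j, X j) (hYs : 0 < ∑ k, Y k) :
    ∑ k, ∑ j, M k j * Y k ^ (1 - t / 2) * X j ^ ((1 - t) / r + t / 2) ≤
      R ^ (1 - t) * ((∑ j, X j) ^ ((1 - t) / r + t / 2) * (∑ k, Y k) ^ (1 - t / 2)) := by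
  set α : ℂ → ℂ := fun z => (1 - z) / r + z / 2 with hα
  set β : ℂ → ℂ := fun z => 1 - z / 2 with hβ
  set f : ℂ → ℂ := fun z => ∑ k, ∑ j, (M k j : ℂ) * cp (Y k) (β z) * cp (X j) (α z) with hf
  have hαre : ∀ z : ℂ, (α z).re = (1 - z.re) / r + z.re / 2 := by
    intro z
    simp only [hα, Complex.add_re, Complex.div_ofReal_re, Complex.sub_re, Complex.one_re]
    congr 1
    exact Complex.div_ofNat_re z 2
  have hβre : ∀ z : ℂ, (β z).re = 1 - z.re / 2 := by
    intro z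
    simp only [hβ, Complex.sub_re, Complex.one_re]
    congr 1
    exact Complex.div_ofNat_re z 2
  have hdiff : Differentiable ℂ f := by
    rw [hf]
    apply Differentiable.fun_sum
    intro k _
    apply Differentiable.fun_sum
    intro j _
    apply Differentiable.mul
    · apply Differentiable.mul (differentiable_const _)
      apply differentiable_cp
      exact (differentiable_const _).sub (differentiable_id.div_const _)
    · apply differentiable_cp
      exact (((differentiable_const _).sub differentiable_id).div_const _).add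
        (differentiable_id.div_const _)
  have hαpos : ∀ z : ℂ, 0 ≤ z.re → z.re ≤ 1 → 0 < (α z).re := by
    intro z hz0 hz1
    rw [hαre]
    rcases eq_or_lt_of_le hz0 with h | h
    · rw [← h]
      simp only [sub_zero, zero_div, add_zero]
      positivity
    · have : 0 ≤ (1 - z.re) / r := div_nonneg (by linarith) hr.le
      linarith
  have hβpos : ∀ z : ℂ, z.re ≤ 1 → 0 < (β z).re := by
    intro z hz1
    rw [hβre]
    linarith
  -- the bound on the whole strip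
  have hbdd : BddAbove ((norm ∘ f) '' Complex.HadamardThreeLines.verticalClosedStrip 0 1) := by
    refine ⟨∑ k, ∑ j, |M k j| * (1 + Y k) * ((1 + X j) ^ (1 / r + 1)), ?_⟩
    rintro _ ⟨z, hz, rfl⟩
    have hz' : z.re ∈ Set.Icc (0 : ℝ) 1 := hz
    simp only [Function.comp, hf]
    refine (norm_sum_le _ _).trans (sum_le_sum fun k _ => ?_)
    refine (norm_sum_le _ _).trans (sum_le_sum fun j _ => ?_)
    rw [norm_mul, norm_mul, Complex.norm_real, Real.norm_eq_abs, norm_cp (hY k) (hβpos z hz'.2),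
      norm_cp (hX j) (hαpos z hz'.1 hz'.2)]
    have hy1 : Y k ^ (β z).re ≤ 1 + Y k := by
      have e1 : Y k ^ (β z).re ≤ (1 + Y k) ^ (β z).re :=
        Real.rpow_le_rpow (hY k) (by linarith) (hβpos z hz'.2).le
      have e2 : (1 + Y k) ^ (β z).re ≤ (1 + Y k) ^ (1 : ℝ) :=
        Real.rpow_le_rpow_of_exponent_le (by linarith [hY k]) (by rw [hβre]; linarith [hz'.1])
      rw [Real.rpow_one] at e2
      exact e1.trans e2
    have hx1 : X j ^ (α z).re ≤ (1 + X j) ^ (1 / r + 1) := by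
      have e1 : X j ^ (α z).re ≤ (1 + X j) ^ (α z).re :=
        Real.rpow_le_rpow (hX j) (by linarith) (hαpos z hz'.1 hz'.2).le
      refine e1.trans (Real.rpow_le_rpow_of_exponent_le (by linarith [hX j]) ?_)
      rw [hαre]
      have h5 : (1 - z.re) / r ≤ 1 / r := div_le_div_of_nonneg_right (by linarith [hz'.1]) hr.le
      linarith [hz'.2]
    have hx0 : 0 ≤ X j ^ (α z).re := Real.rpow_nonneg (hX j) _
    have hy0 : 0 ≤ 1 + Y k := by linarith [hY k]
    apply mul_le_mul _ hx1 hx0 (mul_nonneg (abs_nonneg _) hy0)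
    exact mul_le_mul_of_nonneg_left hy1 (abs_nonneg _)
  -- the left line
  have hleft : ∀ z ∈ Complex.re ⁻¹' ({0} : Set ℝ), ‖f z‖ ≤
      R * ((∑ j, X j) ^ (1 / r) * (∑ k, Y k)) := by
    intro z hz
    have hz0 : z.re = 0 := hz
    have e1 : f z = ∑ k, cp (Y k) (β z) * ∑ j, (M k j : ℂ) * cp (X j) (α z) := by
      simp only [hf, mul_sum]
      apply sum_congr rfl
      intro k _
      apply sum_congr rfl
      intro j _
      ring
    rw [e1]
    refine (norm_sum_le _ _).trans ?_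
    have e2 : ∀ k, ‖cp (Y k) (β z) * ∑ j, (M k j : ℂ) * cp (X j) (α z)‖ ≤
        Y k * (R * (∑ j, X j) ^ (1 / r)) := by
      intro k
      rw [norm_mul, norm_cp (hY k) (hβpos z (by rw [hz0]; norm_num)), hβre, hz0]
      simp only [zero_div, sub_zero, Real.rpow_one]
      apply mul_le_mul_of_nonneg_left _ (hY k)
      refine (complex_sup h0 hR hr _ k).trans (le_of_eq ?_)
      congr 2
      apply sum_congr rfl
      intro j _
      rw [norm_cp (hX j) (hαpos z (by rw [hz0]) (by rw [hz0]; norm_num)), hαre, hz0,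
        ← Real.rpow_mul (hX j)]
      simp only [sub_zero, zero_div, add_zero]
      rw [one_div_mul_cancel hr.ne', Real.rpow_one]
    refine (sum_le_sum fun k _ => e2 k).trans (le_of_eq ?_)
    rw [← sum_mul]
    ring
  -- the right line
  have hright : ∀ z ∈ Complex.re ⁻¹' ({1} : Set ℝ), ‖f z‖ ≤
      (∑ j, X j) ^ (1 / 2 : ℝ) * (∑ k, Y k) ^ (1 / 2 : ℝ) := by
    intro z hz
    have hz1 : z.re = 1 := hz
    have e1 : f z = ∑ k, cp (Y k) (β z) * ∑ j, (M k j : ℂ) * cp (X j) (α z) := by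
      simp only [hf, mul_sum]
      apply sum_congr rfl
      intro k _
      apply sum_congr rfl
      intro j _
      ring
    have e2 : ‖f z‖ ≤ ∑ k, ‖cp (Y k) (β z)‖ * ‖∑ j, (M k j : ℂ) * cp (X j) (α z)‖ := by
      rw [e1]
      refine (norm_sum_le _ _).trans (le_of_eq ?_)
      exact sum_congr rfl fun k _ => norm_mul _ _
    have e3 := sum_mul_sq_le_sq_mul_sq univ (fun k => ‖cp (Y k) (β z)‖)
      (fun k => ‖∑ j, (M k j : ℂ) * cp (X j) (α z)‖)
    have e4 : ∑ k, ‖cp (Y k) (β z)‖ ^ 2 = ∑ k, Y k := by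
      apply sum_congr rfl
      intro k _
      rw [norm_cp (hY k) (hβpos z (by rw [hz1])), hβre, hz1, ← Real.rpow_natCast,
        ← Real.rpow_mul (hY k)]
      norm_num
    have e5 : ∑ k, ‖∑ j, (M k j : ℂ) * cp (X j) (α z)‖ ^ 2 ≤ ∑ j, X j := by
      refine (complex_two h1 _).trans (le_of_eq ?_)
      apply sum_congr rfl
      intro j _
      rw [norm_cp (hX j) (hαpos z (by rw [hz1]; norm_num) (by rw [hz1])), hαre, hz1,
        ← Real.rpow_natCast, ← Real.rpow_mul (hX j)]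
      norm_num
    rw [e4] at e3
    have e6 : ‖f z‖ ^ 2 ≤ (∑ j, X j) * ∑ k, Y k := by
      calc ‖f z‖ ^ 2 ≤ (∑ k, ‖cp (Y k) (β z)‖ * ‖∑ j, (M k j : ℂ) * cp (X j) (α z)‖) ^ 2 :=
            pow_le_pow_left₀ (norm_nonneg _) e2 2
        _ ≤ (∑ k, Y k) * ∑ k, ‖∑ j, (M k j : ℂ) * cp (X j) (α z)‖ ^ 2 := e3
        _ ≤ (∑ k, Y k) * ∑ j, X j := mul_le_mul_of_nonneg_left e5 hYs.le
        _ = _ := mul_comm _ _
    rw [← Real.mul_rpow hXs.le hYs.le, ← Real.sqrt_eq_rpow]
    exact Real.le_sqrt_of_sq_le e6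
  have htl := Complex.HadamardThreeLines.norm_le_interp_of_mem_verticalClosedStrip₀₁' f
    (z := (t : ℂ)) (a := R * ((∑ j, X j) ^ (1 / r) * (∑ k, Y k)))
    (b := (∑ j, X j) ^ (1 / 2 : ℝ) * (∑ k, Y k) ^ (1 / 2 : ℝ))
    (by
      change (t : ℂ).re ∈ Set.Icc (0 : ℝ) 1
      rw [Complex.ofReal_re]
      exact ⟨ht0, ht1⟩) hdiff.diffContOnCl hbdd hleft hright
  rw [Complex.ofReal_re] at htl
  have hft : f (t : ℂ) = ((∑ k, ∑ j, M k j * Y k ^ (1 - t / 2) * X j ^ ((1 - t) / r + t / 2) : ℝ) : ℂ) := by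
    simp only [hf]
    push_cast
    apply sum_congr rfl
    intro k _
    apply sum_congr rfl
    intro j _
    have e1 : β (t : ℂ) = ((1 - t / 2 : ℝ) : ℂ) := by
      simp only [hβ]
      push_cast
      rfl
    have e2 : α (t : ℂ) = (((1 - t) / r + t / 2 : ℝ) : ℂ) := by
      simp only [hα]
      push_cast
      rfl
    have e3 : 0 < 1 - t / 2 := by linarith
    have e4 : 0 < (1 - t) / r + t / 2 := by
      have := hαpos (t : ℂ) (by simpa using ht0) (by simpa using ht1)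
      rwa [hαre, Complex.ofReal_re] at this
    rw [e1, e2, cp_real (hY k) e3, cp_real (hX j) e4]
  rw [hft, Complex.norm_real, Real.norm_eq_abs] at htl
  refine (le_abs_self _).trans (htl.trans (le_of_eq ?_))
  have hxs := hXs.le
  have hys := hYs.le
  rw [Real.mul_rpow hR (by positivity), Real.mul_rpow (by positivity) hys,
    Real.mul_rpow (by positivity) (by positivity), ← Real.rpow_mul hxs, ← Real.rpow_mul hxs,
    ← Real.rpow_mul hys, Real.rpow_add hXs]
  have e1 : (∑ k, Y k) ^ (1 - t / 2) = (∑ k, Y k) ^ (1 - t) * (∑ k, Y k) ^ (1 / 2 * t) := by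
    rw [← Real.rpow_add hYs]
    congr 1
    ring
  rw [e1, show 1 / r * (1 - t) = (1 - t) / r by ring, show (1 / 2 : ℝ) * t = t / 2 by ring]
  ring

end Pool.Schatten.Rnd
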