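import Pool.Agent.Work.MP_9a3a53_an.Norm
import Pool.Agent.Work.MP_9a3a53_rnd.Interp

/-!
# Interpolation for Schatten norms between `(r, ∞)` and `(2, 2)`
-/

set_option autoImplicit false
open Finset Module InnerProductSpace
open scoped ENNReal

namespace Pool.Schatten.Rnd

open Pool.Schatten

variable {N : ℕ}

/-- the diagonal operators of a pair of systems -/
noncomputable def dg (u v : Fin N → EuclideanSpace ℝ (Fin N)) (j : Fin N) :
    Matrix (Fin N) (Fin N) ℝ :=
  Matrix.toEuclideanLin.symm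
    ((LinearMap.toSpanSingleton ℝ (EuclideanSpace ℝ (Fin N)) (u j)).comp
      (innerₗ (EuclideanSpace ℝ (Fin N)) (v j)))

lemma dg_apply (u v : Fin N → EuclideanSpace ℝ (Fin N)) (j : Fin N)
    (y : EuclideanSpace ℝ (Fin N)) :
    Matrix.toEuclideanLin (dg u v j) y = inner ℝ (v j) y • u j := by
  unfold dg
  rw [LinearEquiv.apply_symm_apply, LinearMap.comp_apply, LinearMap.toSpanSingleton_apply]
  rfl

lemma sum_dg_apply (u v : Fin N → EuclideanSpace ℝ (Fin N)) (x : Fin N → ℝ)
    (y : EuclideanSpace ℝ (Fin N)) :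
    Matrix.toEuclideanLin (∑ j, x j • dg u v j) y = ∑ j, (x j * inner ℝ (v j) y) • u j := by
  rw [map_sum, LinearMap.sum_apply]
  apply sum_congr rfl
  intro j _
  rw [map_smul, LinearMap.smul_apply, dg_apply, smul_smul]

lemma sNorm_sum_dg {p : ℝ≥0∞} (hp : 1 ≤ p) {u v : Fin N → EuclideanSpace ℝ (Fin N)}
    (hu : Orthonormal ℝ u) (hv : Orthonormal ℝ v) (x : Fin N → ℝ) :
    sNorm p (∑ j, x j • dg u v j) ≤
      ‖(WithLp.toLp p (fun j => |x j|) : PiLp p (fun _ : Fin N => ℝ))‖ := by
  set s : Fin N → ℝ := fun j => if 0 ≤ x j then 1 else -1 with hs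
  have hs2 : ∀ j, s j * s j = 1 := by
    intro j
    simp only [hs]
    split_ifs <;> norm_num
  have hsx : ∀ j, |x j| * s j = x j := by
    intro j
    simp only [hs]
    split_ifs with h
    · rw [abs_of_nonneg h, mul_one]
    · rw [abs_of_neg (lt_of_not_ge h)]
      ring
  have hu' : Orthonormal ℝ (fun j => s j • u j) := by
    rw [orthonormal_iff_ite]
    intro i j
    rw [inner_smul_left, inner_smul_right, orthonormal_iff_ite.1 hu i j]
    simp only [conj_trivial]
    split_ifs with h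
    · rw [h, mul_one, hs2]
    · ring
  apply sNorm_le_of_expansion hp _ hu' hv (fun j => abs_nonneg (x j))
  intro y
  rw [sum_dg_apply]
  apply sum_congr rfl
  intro j _
  rw [smul_smul]
  congr 1
  calc x j * inner ℝ (v j) y = (|x j| * s j) * inner ℝ (v j) y := by rw [hsx]
    _ = _ := by ring

/-- **interpolation for the Schatten norms** -/
theorem sNorm_rt {P : Matrix (Fin N) (Fin N) ℝ →ₗ[ℝ] Matrix (Fin N) (Fin N) ℝ} {R : ℝ}
    (hR : 0 ≤ R) {r p q : ℝ≥0∞} (hr : 1 ≤ r) (hr' : r ≠ ∞)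
    (h0 : ∀ A, sNorm ∞ (P A) ≤ R * sNorm r A) (h1 : ∀ A, sNorm 2 (P A) ≤ sNorm 2 A)
    (hq : 2 < q) (hq' : q ≠ ∞) (hp : 1 ≤ p) (hp' : p ≠ ∞)
    (hpr : 1 / p.toReal = (1 - 2 / q.toReal) / r.toReal + 1 / q.toReal)
    (A : Matrix (Fin N) (Fin N) ℝ) :
    sNorm q (P A) ≤ R ^ (1 - 2 / q.toReal) * sNorm p A := by
  have hq1 : 1 ≤ q := le_trans (by norm_num) hq.le
  have hQ : 2 < q.toReal := by
    have := (ENNReal.toReal_lt_toReal (by norm_num) hq').2 hq
    simpa using this
  have hP := toReal_pos hp hp'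
  have hRR := toReal_pos hr hr'
  have hS0 : 0 ≤ sNorm p A := sNorm_nonneg hp A
  have hrhs : 0 ≤ R ^ (1 - 2 / q.toReal) * sNorm p A := mul_nonneg (Real.rpow_nonneg hR _) hS0
  obtain ⟨u, v, hA⟩ := exists_svd (N := N) (by simp) (Matrix.toEuclideanLin A)
  obtain ⟨a, b, hB⟩ := exists_svd (N := N) (by simp) (Matrix.toEuclideanLin (P A))
  set σ : Fin N → ℝ := fun j => (Matrix.toEuclideanLin A).singularValues j with hσ
  set s : Fin N → ℝ := fun j => (Matrix.toEuclideanLin (P A)).singularValues j with hs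
  have hσ0 : ∀ j, 0 ≤ σ j := sv_nonneg A
  have hs0 : ∀ j, 0 ≤ s j := sv_nonneg (P A)
  have hAσ : ∑ j, σ j • dg u v j = A := by
    apply Matrix.toEuclideanLin.injective
    ext1 y
    rw [sum_dg_apply, svd_apply hA]
  set M : Fin N → Fin N → ℝ := fun k j => inner ℝ (a k) (Matrix.toEuclideanLin (P (dg u v j)) (b k))
    with hM
  have hMx : ∀ (x : Fin N → ℝ) k, ∑ j, M k j * x j =
      inner ℝ (a k) (Matrix.toEuclideanLin (P (∑ j, x j • dg u v j)) (b k)) := by
    intro x k
    rw [map_sum, map_sum, LinearMap.sum_apply, inner_sum]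
    apply sum_congr rfl
    intro j _
    rw [map_smul, map_smul, LinearMap.smul_apply, inner_smul_right, mul_comm]
  have H0 : ∀ (x : Fin N → ℝ) k, |∑ j, M k j * x j| ≤
      R * (∑ j, |x j| ^ r.toReal) ^ (1 / r.toReal) := by
    intro x k
    rw [hMx]
    refine (inner_le_sNorm le_top _ (a.norm_eq_one k).le (b.norm_eq_one k).le).trans
      ((h0 _).trans (mul_le_mul_of_nonneg_left ?_ hR))
    refine (sNorm_sum_dg hr u.orthonormal v.orthonormal x).trans (le_of_eq ?_)
    exact norm_toLp_fin (by linarith) fun j => abs_nonneg (x j)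
  have H1 : ∀ x : Fin N → ℝ, ∑ k, (∑ j, M k j * x j) ^ 2 ≤ ∑ j, x j ^ 2 := by
    intro x
    have e1 := sum_inner_le_sNorm (p := 2) (by norm_num) (by norm_num)
      (P (∑ j, x j • dg u v j)) a.orthonormal b.orthonormal
    simp only [ENNReal.toReal_ofNat, Real.rpow_ofNat, sq_abs] at e1
    have e2 := sNorm_sum_dg (p := 2) (by norm_num) u.orthonormal v.orthonormal x
    have e3 := sum_rpow_eq (p := 2) (by norm_num) (by norm_num) (fun j => abs_nonneg (x j))
    simp only [ENNReal.toReal_ofNat, Real.rpow_ofNat, sq_abs] at e3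
    simp only [hMx]
    refine e1.trans ?_
    rw [e3]
    apply pow_le_pow_left₀ (sNorm_nonneg (by norm_num) _)
    exact (h1 _).trans e2
  -- the sums
  have hYs0 : 0 ≤ ∑ k, s k ^ q.toReal := sum_nonneg fun k _ => Real.rpow_nonneg (hs0 k) _
  have hXs0 : 0 ≤ ∑ k, σ k ^ p.toReal := sum_nonneg fun k _ => Real.rpow_nonneg (hσ0 k) _
  have hnq : sNorm q (P A) = (∑ k, s k ^ q.toReal) ^ (1 / q.toReal) :=
    norm_toLp_fin (by linarith) hs0
  have hnp : sNorm p A = (∑ k, σ k ^ p.toReal) ^ (1 / p.toReal) :=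
    norm_toLp_fin (by linarith) hσ0
  rcases eq_or_lt_of_le hYs0 with hY | hY
  · rw [hnq, ← hY, Real.zero_rpow (by positivity)]
    exact hrhs
  have hXs : 0 < ∑ k, σ k ^ p.toReal := by
    rcases eq_or_lt_of_le hXs0 with hX | hX
    · exfalso
      have h2 : ∀ j, σ j = 0 := by
        intro j
        have h3 := (sum_eq_zero_iff_of_nonneg fun k _ => Real.rpow_nonneg (hσ0 k) _).1 hX.symm j
          (mem_univ j)
        exact (Real.rpow_eq_zero (hσ0 j) (by linarith)).1 h3
      have h3 : A = 0 := by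
        rw [← hAσ]
        apply sum_eq_zero
        intro j _
        rw [h2 j, zero_smul]
      have h4 : ∀ k, s k = 0 := by
        intro k
        have e1 := hMx σ k
        rw [hAσ, svd_inner hB k] at e1
        have e2 : s k = ∑ j, M k j * σ j := e1.symm
        rw [e2]
        apply sum_eq_zero
        intro j _
        rw [h2 j, mul_zero]
      rw [sum_eq_zero (fun k _ => by rw [h4 k, Real.zero_rpow (by linarith)])] at hY
      exact lt_irrefl _ hY
    · exact hX
  have hI := interp H0 H1 hR (by linarith) (X := fun j => σ j ^ p.toReal)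
    (Y := fun k => s k ^ q.toReal) (fun j => Real.rpow_nonneg (hσ0 j) _)
    (fun k => Real.rpow_nonneg (hs0 k) _) (t := 2 / q.toReal) (by positivity)
    (by rw [div_le_one (by linarith)]; exact hQ.le) hXs hY
  have ex1 : 1 - 2 / q.toReal / 2 = 1 - 1 / q.toReal := by ring
  have ex2 : (1 - 2 / q.toReal) / r.toReal + 2 / q.toReal / 2 = 1 / p.toReal := by
    rw [hpr]
    ring
  rw [ex1, ex2] at hI
  have hL : ∑ k, ∑ j, M k j * (s k ^ q.toReal) ^ (1 - 1 / q.toReal) *
      (σ j ^ p.toReal) ^ (1 / p.toReal) = ∑ k, s k ^ q.toReal := by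
    apply sum_congr rfl
    intro k _
    have e1 : ∀ j, (σ j ^ p.toReal) ^ (1 / p.toReal) = σ j := by
      intro j
      rw [← Real.rpow_mul (hσ0 j), mul_one_div_cancel (by linarith), Real.rpow_one]
    have e2 : ∑ j, M k j * σ j = s k := by
      have := hMx σ k
      rw [hAσ, svd_inner hB k] at this
      exact this
    simp only [e1]
    calc ∑ j, M k j * (s k ^ q.toReal) ^ (1 - 1 / q.toReal) * σ j
        = (s k ^ q.toReal) ^ (1 - 1 / q.toReal) * ∑ j, M k j * σ j := by
          rw [mul_sum]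
          apply sum_congr rfl
          intro j _
          ring
      _ = s k ^ q.toReal := by
          rw [e2, ← Real.rpow_mul (hs0 k)]
          have e3 : q.toReal * (1 - 1 / q.toReal) = q.toReal - 1 := by field_simp
          rw [e3]
          rcases eq_or_lt_of_le (hs0 k) with h5 | h5
          · rw [← h5, mul_zero, Real.zero_rpow (by linarith)]
          · rw [Real.rpow_sub h5, Real.rpow_one, div_mul_cancel₀ _ h5.ne']
  rw [hL] at hI
  rw [hnq, hnp]
  set S := ∑ k, s k ^ q.toReal with hSdef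
  have hsplit : S = S ^ (1 / q.toReal) * S ^ (1 - 1 / q.toReal) := by
    rw [← Real.rpow_add hY]
    rw [add_sub_cancel, Real.rpow_one]
  have hpos : 0 < S ^ (1 - 1 / q.toReal) := Real.rpow_pos_of_pos hY _
  have hI2 : S ^ (1 / q.toReal) * S ^ (1 - 1 / q.toReal) ≤
      (R ^ (1 - 2 / q.toReal) * (∑ k, σ k ^ p.toReal) ^ (1 / p.toReal)) *
        S ^ (1 - 1 / q.toReal) := by
    rw [← hsplit, mul_assoc]
    exact hI
  exact le_of_mul_le_mul_right hI2 hpos

end Pool.Schatten.Rnd
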