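import Mathlib

/-!
# The choice of the sizes
-/

set_option autoImplicit false
open Finset

namespace Pool.Schatten.Rnd

/-- the bound -/
noncomputable def bnd (P : ℝ) (N k : ℕ) : ℝ :=
  max (((k : ℝ) / (N : ℝ) ^ 2) ^ (1 / (2 * (P - 1)))) ((N : ℝ) ^ (-(1 / P)))

theorem exists_sizes2 {P : ℝ} (hP : 2 < P) {N k : ℕ} (hN : 1 ≤ N) (hk : 1 ≤ k) :
    (∃ m l d : ℕ, 1 ≤ m ∧ 4 * d ≤ m ∧ Real.sqrt d ≤ (m : ℝ) ^ (1 / P) ∧ m * l ≤ N ∧
      k ≤ d * l ^ 2 ∧ (m : ℝ) ^ (-(1 / P)) ≤ 12 * bnd P N k) ∨ 1 ≤ 12 * bnd P N k := by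
  have hN0 : (0 : ℝ) < N := by exact_mod_cast hN
  have hk0 : (0 : ℝ) < k := by exact_mod_cast hk
  have hP0 : 0 < P := by linarith
  have hP1 : 0 < P - 1 := by linarith
  have hPi : 0 < 1 / P := by positivity
  have hPi2 : 1 / P < 1 / 2 := one_div_lt_one_div_of_lt (by norm_num) hP
  set a : ℝ := P / (2 * (P - 1)) with ha
  have ha0 : 0 < a := by positivity
  set R : ℝ := (N : ℝ) ^ 2 / (32 * k) with hR
  have hR0 : 0 < R := by positivity
  set X : ℝ := R ^ a with hX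
  have hX0 : 0 < X := Real.rpow_pos_of_pos hR0 _
  set b : ℝ := 1 / (2 * (P - 1)) with hb
  have hb0 : 0 < b := by positivity
  have hb1 : b ≤ 1 / 2 := by
    rw [hb]
    apply one_div_le_one_div_of_le (by norm_num)
    linarith
  have hbnd : bnd P N k = max (((k : ℝ) / (N : ℝ) ^ 2) ^ b) ((N : ℝ) ^ (-(1 / P))) := rfl
  have hXb : X ^ (-(1 / P)) ≤ 6 * ((k : ℝ) / (N : ℝ) ^ 2) ^ b := by
    have e1 : X ^ (-(1 / P)) = (32 * ((k : ℝ) / (N : ℝ) ^ 2)) ^ b := by
      have e2 : (32 * ((k : ℝ) / (N : ℝ) ^ 2)) = R⁻¹ := by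
        rw [hR]
        field_simp
      rw [e2, hX, ← Real.rpow_mul hR0.le, Real.inv_rpow hR0.le, ← Real.rpow_neg hR0.le]
      congr 1
      rw [ha, hb]
      field_simp
    rw [e1, Real.mul_rpow (by norm_num) (by positivity)]
    apply mul_le_mul_of_nonneg_right _ (by positivity)
    calc (32 : ℝ) ^ b ≤ (32 : ℝ) ^ (1 / 2 : ℝ) := Real.rpow_le_rpow_of_exponent_le (by norm_num) hb1
      _ ≤ (36 : ℝ) ^ (1 / 2 : ℝ) := Real.rpow_le_rpow (by norm_num) (by norm_num) (by norm_num)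
      _ = 6 := by
        rw [← Real.sqrt_eq_rpow, show (36 : ℝ) = 6 ^ 2 by norm_num, Real.sqrt_sq (by norm_num)]
  have h4P : (1 / 2 : ℝ) ≤ (4 : ℝ) ^ (-(1 / P)) := by
    calc (1 / 2 : ℝ) = (4 : ℝ) ^ (-(1 / 2) : ℝ) := by
          rw [Real.rpow_neg (by norm_num), ← Real.sqrt_eq_rpow,
            show (4 : ℝ) = 2 ^ 2 by norm_num, Real.sqrt_sq (by norm_num)]
          norm_num
      _ ≤ (4 : ℝ) ^ (-(1 / P)) := Real.rpow_le_rpow_of_exponent_le (by norm_num) (by linarith)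
  have hneg : ∀ {x y : ℝ}, 0 < x → x ≤ y → y ^ (-(1 / P)) ≤ x ^ (-(1 / P)) := fun hx hxy =>
    Real.rpow_le_rpow_of_nonpos hx hxy (by linarith)
  rcases lt_or_ge (min (N : ℝ) X) 4 with hY | hY
  · right
    rw [hbnd]
    rcases min_lt_iff.1 hY with h1 | h1
    · have h2 := hneg hN0 h1.le
      have h3 := le_max_right (((k : ℝ) / (N : ℝ) ^ 2) ^ b) ((N : ℝ) ^ (-(1 / P)))
      linarith
    · have h2 := hneg hX0 h1.le
      have h3 := le_max_left (((k : ℝ) / (N : ℝ) ^ 2) ^ b) ((N : ℝ) ^ (-(1 / P)))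
      linarith
  · left
    set Y : ℝ := min (N : ℝ) X with hYdef
    have hY0 : 0 < Y := by linarith
    set m : ℕ := ⌊Y⌋₊ with hm
    have hmY : (m : ℝ) ≤ Y := Nat.floor_le hY0.le
    have hm4 : 4 ≤ m := Nat.le_floor (by exact_mod_cast hY)
    have hm4' : (4 : ℝ) ≤ m := by exact_mod_cast hm4
    have hm0 : (0 : ℝ) < m := by linarith
    have hmY2 : Y / 2 ≤ m := by
      have := Nat.lt_floor_add_one Y
      rw [← hm] at this
      linarith
    have hmN : m ≤ N := by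
      have : (m : ℝ) ≤ N := hmY.trans (min_le_left _ _)
      exact_mod_cast this
    have hmX : (m : ℝ) ≤ X := hmY.trans (min_le_right _ _)
    set d : ℕ := max 1 ⌊(m : ℝ) ^ (2 / P) / 4⌋₊ with hd
    set l : ℕ := N / m with hl
    have h2P : 2 / P ≤ 1 := by
      rw [div_le_one hP0]
      exact hP.le
    have hmp1 : 1 ≤ (m : ℝ) ^ (2 / P) := Real.one_le_rpow (by linarith) (by positivity)
    have hmp2 : (m : ℝ) ^ (2 / P) ≤ m := by
      calc (m : ℝ) ^ (2 / P) ≤ (m : ℝ) ^ (1 : ℝ) :=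
            Real.rpow_le_rpow_of_exponent_le (by linarith) h2P
        _ = m := Real.rpow_one _
    have hfl : ((⌊(m : ℝ) ^ (2 / P) / 4⌋₊ : ℕ) : ℝ) ≤ (m : ℝ) ^ (2 / P) / 4 :=
      Nat.floor_le (by positivity)
    have hd4 : 4 * d ≤ m := by
      rw [hd]
      rcases le_total 1 ⌊(m : ℝ) ^ (2 / P) / 4⌋₊ with h | h
      · rw [max_eq_right h]
        have : (4 * (⌊(m : ℝ) ^ (2 / P) / 4⌋₊ : ℕ) : ℝ) ≤ m := by linarith
        exact_mod_cast this
      · rw [max_eq_left h]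
        omega
    have hdle : (d : ℝ) ≤ (m : ℝ) ^ (2 / P) := by
      rw [hd, Nat.cast_max]
      apply max_le
      · simpa using hmp1
      · linarith
    have hdge : (m : ℝ) ^ (2 / P) / 8 ≤ d := by
      rw [hd, Nat.cast_max]
      rcases lt_or_ge ((m : ℝ) ^ (2 / P) / 4) 1 with h | h
      · refine le_trans ?_ (le_max_left _ _)
        push_cast
        linarith
      · refine le_trans ?_ (le_max_right _ _)
        have h5 := Nat.lt_floor_add_one ((m : ℝ) ^ (2 / P) / 4)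
        have h6 : 1 ≤ ⌊(m : ℝ) ^ (2 / P) / 4⌋₊ := Nat.le_floor (by exact_mod_cast h)
        have h7 : (1 : ℝ) ≤ (⌊(m : ℝ) ^ (2 / P) / 4⌋₊ : ℕ) := by exact_mod_cast h6
        linarith
    have hlge : (N : ℝ) / (2 * m) ≤ l := by
      rw [div_le_iff₀ (by positivity)]
      have h1 : 1 ≤ l := (Nat.one_le_div_iff (by omega)).2 hmN
      have h2 : N < m * (l + 1) := Nat.lt_mul_div_succ N (by omega)
      have h3 : N ≤ l * (2 * m) := by nlinarith
      exact_mod_cast h3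
    refine ⟨m, l, d, by omega, hd4, ?_, Nat.mul_div_le N m, ?_, ?_⟩
    · rw [Real.sqrt_le_left (by positivity)]
      refine hdle.trans (le_of_eq ?_)
      rw [← Real.rpow_natCast, ← Real.rpow_mul hm0.le]
      congr 1
      push_cast
      ring
    · have h1 : (m : ℝ) ^ (2 - 2 / P) ≤ R := by
        calc (m : ℝ) ^ (2 - 2 / P) ≤ X ^ (2 - 2 / P) :=
              Real.rpow_le_rpow hm0.le hmX (by linarith)
          _ = R := by
              rw [hX, ← Real.rpow_mul hR0.le]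
              have : a * (2 - 2 / P) = 1 := by
                rw [ha]
                field_simp
              rw [this, Real.rpow_one]
      have h2 : (m : ℝ) ^ (2 - 2 / P) = (m : ℝ) ^ 2 / (m : ℝ) ^ (2 / P) := by
        rw [Real.rpow_sub hm0]
        norm_num
      rw [h2, hR, div_le_div_iff₀ (by positivity) (by positivity)] at h1
      have h3 : (k : ℝ) ≤ (m : ℝ) ^ (2 / P) / 8 * ((N : ℝ) / (2 * m)) ^ 2 := by
        have e1 : (m : ℝ) ^ (2 / P) / 8 * ((N : ℝ) / (2 * m)) ^ 2 =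
            ((N : ℝ) ^ 2 * (m : ℝ) ^ (2 / P)) / (32 * (m : ℝ) ^ 2) := by
          field_simp
          ring
        rw [e1, le_div_iff₀ (by positivity)]
        linarith
      have h4 : (m : ℝ) ^ (2 / P) / 8 * ((N : ℝ) / (2 * m)) ^ 2 ≤ (d : ℝ) * (l : ℝ) ^ 2 := by
        apply mul_le_mul hdge _ (by positivity) (by positivity)
        exact pow_le_pow_left₀ (by positivity) hlge 2
      have h5 := h3.trans h4
      exact_mod_cast h5
    · have hhalf : ∀ {x : ℝ}, 0 < x → (x / 2) ^ (-(1 / P)) ≤ 2 * x ^ (-(1 / P)) := by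
        intro x hx
        rw [Real.div_rpow hx.le (by norm_num), div_le_iff₀ (by positivity)]
        have e1 : 1 ≤ 2 * (2 : ℝ) ^ (-(1 / P)) := by
          have e2 : (2 : ℝ) ^ (-1 : ℝ) ≤ (2 : ℝ) ^ (-(1 / P)) :=
            Real.rpow_le_rpow_of_exponent_le (by norm_num) (by linarith)
          rw [Real.rpow_neg_one] at e2
          linarith
        have e3 : 0 ≤ x ^ (-(1 / P)) := by positivity
        calc x ^ (-(1 / P)) = x ^ (-(1 / P)) * 1 := (mul_one _).symm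
          _ ≤ x ^ (-(1 / P)) * (2 * (2 : ℝ) ^ (-(1 / P))) := mul_le_mul_of_nonneg_left e1 e3
          _ = _ := by ring
      have h1 : (m : ℝ) ^ (-(1 / P)) ≤ 2 * Y ^ (-(1 / P)) :=
        (hneg (by positivity) hmY2).trans (hhalf hY0)
      rw [hbnd]
      rcases min_cases (N : ℝ) X with ⟨h2, _⟩ | ⟨h2, _⟩
      · rw [hYdef, h2] at h1
        have h3 := le_max_right (((k : ℝ) / (N : ℝ) ^ 2) ^ b) ((N : ℝ) ^ (-(1 / P)))
        have h4 : 0 ≤ (N : ℝ) ^ (-(1 / P)) := by positivity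
        linarith
      · rw [hYdef, h2] at h1
        have h3 := le_max_left (((k : ℝ) / (N : ℝ) ^ 2) ^ b) ((N : ℝ) ^ (-(1 / P)))
        linarith

end Pool.Schatten.Rnd
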