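import Pool.Agent.Work.MP_9a3a53_rnd.Main

/-!
# The projection
-/

set_option autoImplicit false
open Finset Module InnerProductSpace
open scoped ENNReal

namespace Pool.Schatten.Rnd

open Pool.Schatten

variable {N m l d : ℕ}

section hs

variable {E F : Type*} [NormedAddCommGroup E] [InnerProductSpace ℝ E] [FiniteDimensional ℝ E]
  [NormedAddCommGroup F] [InnerProductSpace ℝ F] [FiniteDimensional ℝ F]

lemma hs_eq {ι κ : Type*} [Fintype ι] [Fintype κ] (T : E →ₗ[ℝ] F) (u : OrthonormalBasis ι ℝ E)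
    (f : OrthonormalBasis κ ℝ F) :
    ∑ i, ‖T (u i)‖ ^ 2 = ∑ k, ‖LinearMap.adjoint T (f k)‖ ^ 2 := by
  have h1 : ∀ i, ‖T (u i)‖ ^ 2 = ∑ k, inner ℝ (f k) (T (u i)) ^ 2 := fun i =>
    (f.sum_sq_inner_right _).symm
  have h2 : ∀ k, ‖LinearMap.adjoint T (f k)‖ ^ 2 =
      ∑ i, inner ℝ (LinearMap.adjoint T (f k)) (u i) ^ 2 := fun k =>
    (u.sum_sq_inner_left _).symm
  simp only [h1, h2, LinearMap.adjoint_inner_left]
  rw [sum_comm]

end hs

lemma sum_sub {α M : Type*} [Fintype α] [AddCommMonoid M] (P : α → Prop) [DecidablePred P]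
    (g : α → M) (h : ∀ a, ¬ P a → g a = 0) : ∑ a : {a // P a}, g a = ∑ a, g a := by
  rw [← Fintype.sum_subtype_add_sum_subtype P g]
  have h1 : ∑ x : {x // ¬ P x}, g x = 0 := sum_eq_zero fun x _ => h x x.2
  rw [h1, add_zero]

/-- the blocks of a vector -/
noncomputable def phi (e : Fin m × Fin l → Fin N) (ξ : EuclideanSpace ℝ (Fin N)) (x : Fin m) :
    EuclideanSpace ℝ (Fin l) := Matrix.toEuclideanLin (blk e x).transpose ξ

lemma inner_phi (e : Fin m × Fin l → Fin N) (ξ : EuclideanSpace ℝ (Fin N)) (x : Fin m)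
    (w : EuclideanSpace ℝ (Fin l)) : inner ℝ w (phi e ξ x) = inner ℝ (J e x w) ξ := by
  unfold J phi
  rw [inner_toEuclideanLin]

lemma sum_phi_le {e : Fin m × Fin l → Fin N} (he : Function.Injective e)
    (ξ : EuclideanSpace ℝ (Fin N)) : ∑ x, ‖phi e ξ x‖ ^ 2 ≤ ‖ξ‖ ^ 2 := by
  set f := EuclideanSpace.basisFun (Fin l) ℝ with hf
  have h1 : ∀ x, ‖phi e ξ x‖ ^ 2 = ∑ s, inner ℝ (J e x (f s)) ξ ^ 2 := by
    intro x
    rw [← f.sum_sq_inner_right]
    apply sum_congr rfl
    intro s _
    rw [inner_phi]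
  simp only [h1]
  have h2 := (orthonormal_J he f.orthonormal).sum_inner_products_le (s := univ) ξ
  simp only [Real.norm_eq_abs, sq_abs] at h2
  rwa [Fintype.sum_prod_type] at h2

/-- **the Schmidt decomposition** -/
theorem schmidt {e : Fin m × Fin l → Fin N} (he : Function.Injective e)
    {ξ : EuclideanSpace ℝ (Fin N)} (hξ : ‖ξ‖ ≤ 1) :
    ∃ (J : Type) (_ : Fintype J) (u : J → EuclideanSpace ℝ (Fin m))
      (w : J → EuclideanSpace ℝ (Fin l)) (s : J → ℝ), Orthonormal ℝ u ∧ Orthonormal ℝ w ∧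
      ∑ j, s j ^ 2 ≤ 1 ∧ ∀ x, phi e ξ x = ∑ j, (s j * u j x) • w j := by
  classical
  set T : EuclideanSpace ℝ (Fin m) →ₗ[ℝ] EuclideanSpace ℝ (Fin l) :=
    { toFun := fun y => ∑ x, y x • phi e ξ x
      map_add' := fun y z => by
        simp only [PiLp.add_apply, add_smul, sum_add_distrib]
      map_smul' := fun c y => by
        simp only [PiLp.smul_apply, smul_eq_mul, RingHom.id_apply, smul_sum, smul_smul] } with hT
  have hTa : ∀ y, T y = ∑ x, y x • phi e ξ x := fun y => rfl
  set hS := T.isSymmetric_adjoint_comp_self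
  set u := hS.eigenvectorBasis (n := m) (by simp) with hu
  have h2 : ∀ i j : Fin m, i ≠ j → inner ℝ (T (u i)) (T (u j)) = 0 := by
    intro i j hij
    have h1 := hS.apply_eigenvectorBasis (n := m) (by simp) j
    rw [← LinearMap.adjoint_inner_right]
    have h3 : (LinearMap.adjoint T) (T (u j)) = (LinearMap.adjoint T ∘ₗ T) (u j) := rfl
    rw [h3, hu, h1, inner_smul_right, ← hu, orthonormal_iff_ite.1 u.orthonormal, if_neg hij, mul_zero]
  set f := EuclideanSpace.basisFun (Fin m) ℝ with hf
  have hTf : ∀ x, T (f x) = phi e ξ x := by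
    intro x
    rw [hTa, sum_eq_single x]
    · simp [hf]
    · intro y _ hy
      simp [hf, hy]
    · intro hx
      exact (hx (mem_univ _)).elim
  have hsum : ∑ j, ‖T (u j)‖ ^ 2 ≤ 1 := by
    have e1 := hs_eq T u (EuclideanSpace.basisFun (Fin l) ℝ)
    have e2 := hs_eq T f (EuclideanSpace.basisFun (Fin l) ℝ)
    rw [e1, ← e2]
    simp only [hTf]
    exact (sum_phi_le he ξ).trans (pow_le_one₀ (norm_nonneg _) hξ)
  refine ⟨{j : Fin m // T (u j) ≠ 0}, inferInstance, fun j => u j, fun j => ‖T (u j)‖⁻¹ • T (u j),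
    fun j => ‖T (u j)‖, ?_, ?_, ?_, ?_⟩
  · exact u.orthonormal.comp _ Subtype.val_injective
  · rw [orthonormal_iff_ite]
    rintro ⟨i, hi⟩ ⟨j, hj⟩
    simp only [inner_smul_left, inner_smul_right, Subtype.mk.injEq, conj_trivial]
    split_ifs with h
    · subst h
      have hi' : ‖T (u i)‖ ≠ 0 := norm_ne_zero_iff.2 hi
      rw [real_inner_self_eq_norm_sq]
      field_simp
    · rw [h2 i j h]
      ring
  · refine le_trans (le_of_eq ?_) hsum
    exact sum_sub (fun j : Fin m => T (u j) ≠ 0) (fun j => ‖T (u j)‖ ^ 2) (fun j hj => by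
      rw [not_not.1 hj, norm_zero, zero_pow two_ne_zero])
  · intro x
    rw [← hTf]
    conv_lhs => rw [← u.sum_repr' (f x)]
    rw [map_sum]
    have e1 : ∀ j, T (inner ℝ (u j) (f x) • u j) = u j x • T (u j) := by
      intro j
      rw [map_smul, hf, EuclideanSpace.basisFun_apply, EuclideanSpace.inner_single_right]
      simp
    simp only [e1]
    rw [← sum_sub (fun j : Fin m => T (u j) ≠ 0) (fun j => u j x • T (u j)) (fun j hj => by
      rw [not_not.1 hj, smul_zero])]
    apply sum_congr rfl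
    rintro ⟨j, hj⟩ _
    have hj' : ‖T (u j)‖ ≠ 0 := norm_ne_zero_iff.2 hj
    simp only [smul_smul]
    congr 1
    field_simp

/-- the coefficient maps -/
noncomputable def dn (e : Fin m × Fin l → Fin N) (h : Fin d → EuclideanSpace ℝ (Fin m × Fin m)) :
    Matrix (Fin N) (Fin N) ℝ →ₗ[ℝ] (Fin d → Matrix (Fin l) (Fin l) ℝ) where
  toFun A i := ∑ x, ∑ y, h i (x, y) • ((blk e x).transpose * A * blk e y)
  map_add' A B := by
    ext1 i
    simp only [Matrix.mul_add, Matrix.add_mul, smul_add, sum_add_distrib, Pi.add_apply]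
  map_smul' c A := by
    ext1 i
    simp only [Matrix.mul_smul, Matrix.smul_mul, RingHom.id_apply, Pi.smul_apply, smul_sum]
    apply sum_congr rfl
    intro x _
    apply sum_congr rfl
    intro y _
    rw [smul_comm]

/-- the embedding -/
noncomputable def upp (e : Fin m × Fin l → Fin N) (h : Fin d → EuclideanSpace ℝ (Fin m × Fin m)) :
    (Fin d → Matrix (Fin l) (Fin l) ℝ) →ₗ[ℝ] Matrix (Fin N) (Fin N) ℝ where
  toFun Z := ∑ i, ∑ x, ∑ y, h i (x, y) • (blk e x * Z i * (blk e y).transpose)
  map_add' A B := by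
    simp only [Matrix.mul_add, Matrix.add_mul, smul_add, sum_add_distrib, Pi.add_apply]
  map_smul' c A := by
    simp only [Matrix.mul_smul, Matrix.smul_mul, RingHom.id_apply, Pi.smul_apply, smul_sum]
    apply sum_congr rfl
    intro i _
    apply sum_congr rfl
    intro x _
    apply sum_congr rfl
    intro y _
    rw [smul_comm]

lemma dn_apply (e : Fin m × Fin l → Fin N) (h : Fin d → EuclideanSpace ℝ (Fin m × Fin m))
    (A : Matrix (Fin N) (Fin N) ℝ) (i : Fin d) :
    dn e h A i = ∑ x, ∑ y, h i (x, y) • ((blk e x).transpose * A * blk e y) := rfl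

lemma upp_apply (e : Fin m × Fin l → Fin N) (h : Fin d → EuclideanSpace ℝ (Fin m × Fin m))
    (Z : Fin d → Matrix (Fin l) (Fin l) ℝ) :
    upp e h Z = ∑ i, ∑ x, ∑ y, h i (x, y) • (blk e x * Z i * (blk e y).transpose) := rfl

lemma blk_upp {e : Fin m × Fin l → Fin N} (he : Function.Injective e)
    (h : Fin d → EuclideanSpace ℝ (Fin m × Fin m)) (Z : Fin d → Matrix (Fin l) (Fin l) ℝ)
    (x y : Fin m) : (blk e x).transpose * upp e h Z * blk e y = ∑ i, h i (x, y) • Z i := by
  rw [upp_apply]
  simp only [Matrix.mul_sum, Matrix.sum_mul, Matrix.mul_smul, Matrix.smul_mul]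
  apply sum_congr rfl
  intro i _
  rw [sum_eq_single x, sum_eq_single y]
  · congr 1
    have h2 : (blk e x).transpose * (blk e x * Z i * (blk e y).transpose) * blk e y =
        ((blk e x).transpose * blk e x) * Z i * ((blk e y).transpose * blk e y) := by
      simp only [Matrix.mul_assoc]
    rw [h2, blk_mul he, if_pos rfl, blk_mul he, if_pos rfl, Matrix.one_mul, Matrix.mul_one]
  · intro b _ hb
    have h2 : (blk e x).transpose * (blk e x * Z i * (blk e b).transpose) * blk e y =
        ((blk e x).transpose * blk e x) * Z i * ((blk e b).transpose * blk e y) := by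
      simp only [Matrix.mul_assoc]
    rw [h2, blk_mul he b y, if_neg hb, Matrix.mul_zero, smul_zero]
  · intro hx
    exact (hx (mem_univ _)).elim
  · intro b _ hb
    apply sum_eq_zero
    intro c _
    have h2 : (blk e x).transpose * (blk e b * Z i * (blk e c).transpose) * blk e y =
        ((blk e x).transpose * blk e b) * Z i * ((blk e c).transpose * blk e y) := by
      simp only [Matrix.mul_assoc]
    rw [h2, blk_mul he x b, if_neg (Ne.symm hb), Matrix.zero_mul, Matrix.zero_mul, smul_zero]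
  · intro hx
    exact (hx (mem_univ _)).elim

lemma dn_upp {e : Fin m × Fin l → Fin N} (he : Function.Injective e)
    {h : Fin d → EuclideanSpace ℝ (Fin m × Fin m)} (hh : Orthonormal ℝ h)
    (Z : Fin d → Matrix (Fin l) (Fin l) ℝ) : dn e h (upp e h Z) = Z := by
  ext1 i
  rw [dn_apply]
  simp only [blk_upp he, smul_sum, smul_smul]
  have e1 : ∑ x, ∑ y, ∑ j, (h i (x, y) * h j (x, y)) • Z j =
      ∑ j, (∑ x : Fin m × Fin m, h i x * h j x) • Z j := by
    have e2 : ∀ x : Fin m, ∑ y, ∑ j, (h i (x, y) * h j (x, y)) • Z j =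
        ∑ j, ∑ y, (h i (x, y) * h j (x, y)) • Z j := fun x => sum_comm
    simp only [e2]
    rw [sum_comm]
    apply sum_congr rfl
    intro j _
    rw [Fintype.sum_prod_type, sum_smul]
    apply sum_congr rfl
    intro x _
    rw [sum_smul]
  rw [e1, sum_eq_single i]
  · have e3 : ∑ x : Fin m × Fin m, h i x * h i x = 1 := by
      have h1 := orthonormal_iff_ite.1 hh i i
      rw [if_pos rfl, PiLp.inner_apply] at h1
      simp only [RCLike.inner_apply, conj_trivial] at h1
      exact h1
    rw [e3, one_smul]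
  · intro j _ hj
    have e3 : ∑ x : Fin m × Fin m, h i x * h j x = 0 := by
      have h1 := orthonormal_iff_ite.1 hh i j
      rw [if_neg (Ne.symm hj), PiLp.inner_apply] at h1
      simp only [RCLike.inner_apply, conj_trivial] at h1
      rw [← h1]
      apply sum_congr rfl
      intro x _
      ring
    rw [e3, zero_smul]
  · intro hi
    exact (hi (mem_univ _)).elim

/-- the bilinear form of the projection -/
lemma inner_proj (e : Fin m × Fin l → Fin N)
    (h : Fin d → EuclideanSpace ℝ (Fin m × Fin m)) (A : Matrix (Fin N) (Fin N) ℝ)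
    {ξ η : EuclideanSpace ℝ (Fin N)} {ι ι' : Type} [Fintype ι] [Fintype ι']
    {u : ι → EuclideanSpace ℝ (Fin m)} {w : ι → EuclideanSpace ℝ (Fin l)} {s : ι → ℝ}
    {v : ι' → EuclideanSpace ℝ (Fin m)} {z : ι' → EuclideanSpace ℝ (Fin l)} {t : ι' → ℝ}
    (h1 : ∀ x, phi e ξ x = ∑ j, (s j * u j x) • w j)
    (h2 : ∀ x, phi e η x = ∑ j, (t j * v j x) • z j) :
    inner ℝ ξ (Matrix.toEuclideanLin (upp e h (dn e h A)) η) =
      ∑ a, ∑ b, ∑ i, (s a * t b * inner ℝ (h i) (tens (u a) (v b))) *
        inner ℝ (h i) (Th e A (w a) (z b)) := by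
  have e1 : ∀ i a b, inner ℝ (w a) (Matrix.toEuclideanLin (dn e h A i) (z b)) =
      inner ℝ (h i) (Th e A (w a) (z b)) := by
    intro i a b
    rw [dn_apply, map_sum, LinearMap.sum_apply, inner_sum, PiLp.inner_apply, Fintype.sum_prod_type]
    apply sum_congr rfl
    intro x _
    rw [map_sum, LinearMap.sum_apply, inner_sum]
    apply sum_congr rfl
    intro y _
    rw [map_smul, LinearMap.smul_apply, inner_smul_right, toEuclideanLin_mul, toEuclideanLin_mul]
    simp only [RCLike.inner_apply, conj_trivial, Th]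
    rw [mul_comm]
    congr 1
    unfold J
    rw [inner_toEuclideanLin]
  have e2 : ∀ i x y, inner ℝ ξ (Matrix.toEuclideanLin
      (blk e x * dn e h A i * (blk e y).transpose) η) =
      ∑ a, ∑ b, (s a * u a x) * (t b * v b y) * inner ℝ (h i) (Th e A (w a) (z b)) := by
    intro i x y
    rw [toEuclideanLin_mul, toEuclideanLin_mul]
    have e3 : inner ℝ ξ (Matrix.toEuclideanLin (blk e x) (Matrix.toEuclideanLin (dn e h A i)
        (Matrix.toEuclideanLin (blk e y).transpose η))) =
        inner ℝ (phi e ξ x) (Matrix.toEuclideanLin (dn e h A i) (phi e η y)) := by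
      unfold phi
      rw [inner_toEuclideanLin, Matrix.transpose_transpose]
    rw [e3, h1, h2, map_sum, sum_inner]
    apply sum_congr rfl
    intro a _
    rw [inner_sum]
    apply sum_congr rfl
    intro b _
    rw [map_smul, inner_smul_left, inner_smul_right, e1]
    simp only [conj_trivial]
    ring
  rw [upp_apply, map_sum, LinearMap.sum_apply, inner_sum]
  have e4 : ∀ i, inner ℝ ξ (Matrix.toEuclideanLin (∑ x, ∑ y, h i (x, y) •
      (blk e x * dn e h A i * (blk e y).transpose)) η) =
      ∑ a, ∑ b, (s a * t b * inner ℝ (h i) (tens (u a) (v b))) *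
        inner ℝ (h i) (Th e A (w a) (z b)) := by
    intro i
    rw [map_sum, LinearMap.sum_apply, inner_sum]
    have e5 : ∀ x, inner ℝ ξ (Matrix.toEuclideanLin (∑ y, h i (x, y) •
        (blk e x * dn e h A i * (blk e y).transpose)) η) =
        ∑ a, ∑ b, ∑ y, h i (x, y) * ((s a * u a x) * (t b * v b y) *
          inner ℝ (h i) (Th e A (w a) (z b))) := by
      intro x
      rw [map_sum, LinearMap.sum_apply, inner_sum]
      have e6 : ∀ y, inner ℝ ξ (Matrix.toEuclideanLin (h i (x, y) •
          (blk e x * dn e h A i * (blk e y).transpose)) η) =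
          ∑ a, ∑ b, h i (x, y) * ((s a * u a x) * (t b * v b y) *
            inner ℝ (h i) (Th e A (w a) (z b))) := by
        intro y
        rw [map_smul, LinearMap.smul_apply, inner_smul_right, e2]
        simp only [mul_sum]
      simp only [e6]
      rw [sum_comm]
      apply sum_congr rfl
      intro a _
      rw [sum_comm]
    simp only [e5]
    rw [sum_comm]
    apply sum_congr rfl
    intro a _
    rw [sum_comm]
    apply sum_congr rfl
    intro b _
    have e7 : inner ℝ (h i) (tens (u a) (v b)) = ∑ x, ∑ y, h i (x, y) * (u a x * v b y) := by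
      rw [PiLp.inner_apply, Fintype.sum_prod_type]
      apply sum_congr rfl
      intro x _
      apply sum_congr rfl
      intro y _
      simp only [RCLike.inner_apply, conj_trivial, tens_apply]
      ring
    rw [e7, mul_sum, sum_mul]
    apply sum_congr rfl
    intro x _
    rw [mul_sum, sum_mul]
    apply sum_congr rfl
    intro y _
    ring
  simp only [e4]
  rw [sum_comm]
  apply sum_congr rfl
  intro a _
  rw [sum_comm]

/-- **the norm of the projection** -/
theorem proj_le {e : Fin m × Fin l → Fin N} (he : Function.Injective e) (hm : 1 ≤ m)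
    {h : Fin d → EuclideanSpace ℝ (Fin m × Fin m)}
    (hh : Orthonormal ℝ h) (hU : Unif m d h) {p : ℝ≥0∞} (hp : 2 < p) (hp' : p ≠ ∞)
    (hd : Real.sqrt d ≤ (m : ℝ) ^ (1 / p.toReal)) (A : Matrix (Fin N) (Fin N) ℝ) :
    sNorm ∞ (upp e h (dn e h A)) ≤
      CP p.toReal * (m : ℝ) ^ (-(1 / p.toReal)) * sNorm p A := by
  have hp1 : 1 ≤ p := le_trans (by norm_num) hp.le
  have hP : 2 < p.toReal := by
    have := (ENNReal.toReal_lt_toReal (by norm_num) hp').2 hp
    simpa using this
  have hnn : 0 ≤ CP p.toReal * (m : ℝ) ^ (-(1 / p.toReal)) * sNorm p A :=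
    mul_nonneg (mul_nonneg (CP_pos hP).le (by positivity)) (sNorm_nonneg hp1 A)
  obtain ⟨u, v, hsvd⟩ := exists_svd (N := N) (by simp)
    (Matrix.toEuclideanLin (upp e h (dn e h A)))
  unfold sNorm
  rw [norm_toLp_top (sv_nonneg _)]
  refine Real.iSup_le (fun j => ?_) hnn
  rw [← svd_inner hsvd j]
  obtain ⟨J, _, a, w, s, ha, hw, hs, h1⟩ := schmidt he (ξ := u j) (u.orthonormal.norm_eq_one j).le
  obtain ⟨J', _, b, z, t, hb, hz, ht, h2⟩ := schmidt he (ξ := v j)
    (v.orthonormal.norm_eq_one j).le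
  rw [inner_proj e h A h1 h2]
  exact (le_abs_self _).trans (core he hm A hh hU ha hb hw hz hp hp' hd hs ht)

end Pool.Schatten.Rnd
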