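import Pool.Agent.Work.MP_9a3a53_an.Low
import Pool.Agent.Work.MP_9a3a53_rnd.Op

/-!
# The projection is a contraction for the Hilbert-Schmidt norm
-/

set_option autoImplicit false
open Finset Module InnerProductSpace
open scoped ENNReal

namespace Pool.Schatten.Rnd

open Pool.Schatten

variable {N m l d : ℕ}

lemma trace_tr_mul {a b : ℕ} (A B : Matrix (Fin a) (Fin b) ℝ) :
    (A.transpose * B).trace = ∑ i, ∑ j, A i j * B i j := by
  simp only [Matrix.trace, Matrix.diag_apply, Matrix.mul_apply, Matrix.transpose_apply]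
  exact sum_comm

/-- the two maps are adjoint to each other -/
lemma trace_upp (e : Fin m × Fin l → Fin N) (h : Fin d → EuclideanSpace ℝ (Fin m × Fin m))
    (Z : Fin d → Matrix (Fin l) (Fin l) ℝ) (A : Matrix (Fin N) (Fin N) ℝ) :
    ((upp e h Z).transpose * A).trace = ∑ i, ((Z i).transpose * dn e h A i).trace := by
  rw [upp_apply]
  simp only [dn_apply, Matrix.transpose_sum, Matrix.sum_mul, Matrix.trace_sum, Matrix.mul_sum,
    Matrix.transpose_smul, Matrix.smul_mul, Matrix.mul_smul, Matrix.trace_smul]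
  apply sum_congr rfl
  intro i _
  apply sum_congr rfl
  intro x _
  apply sum_congr rfl
  intro y _
  congr 1
  rw [Matrix.transpose_mul, Matrix.transpose_mul, Matrix.transpose_transpose,
    Matrix.mul_assoc, Matrix.trace_mul_comm]
  simp only [Matrix.mul_assoc]

/-- **the contraction property** -/
theorem sNorm_two_proj_le {e : Fin m × Fin l → Fin N} (he : Function.Injective e)
    {h : Fin d → EuclideanSpace ℝ (Fin m × Fin m)} (hh : Orthonormal ℝ h)
    (A : Matrix (Fin N) (Fin N) ℝ) : sNorm 2 (upp e h (dn e h A)) ≤ sNorm 2 A := by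
  set B := upp e h (dn e h A) with hB
  have h12 : (1 : ℝ≥0∞) ≤ 2 := by norm_num
  have hB0 := sNorm_nonneg h12 B
  have hA0 := sNorm_nonneg h12 A
  have e1 : (B.transpose * A).trace = (B.transpose * B).trace := by
    have e2 := trace_upp e h (dn e h A) A
    have e3 := trace_upp e h (dn e h A) B
    rw [← hB] at e2 e3
    rw [e2, e3, hB, dn_upp he hh]
  rw [trace_tr_mul, trace_tr_mul] at e1
  have e4 : sNorm 2 B ^ 2 = ∑ i, ∑ j, B i j * A i j := by
    rw [e1, sNorm_two_sq]
    apply sum_congr rfl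
    intro i _
    apply sum_congr rfl
    intro j _
    ring
  have e5 : (∑ x : Fin N × Fin N, B x.1 x.2 * A x.1 x.2) ^ 2 ≤
      (∑ x : Fin N × Fin N, B x.1 x.2 ^ 2) * ∑ x : Fin N × Fin N, A x.1 x.2 ^ 2 :=
    sum_mul_sq_le_sq_mul_sq _ _ _
  rw [Fintype.sum_prod_type, Fintype.sum_prod_type, Fintype.sum_prod_type] at e5
  simp only at e5
  rw [← e4, ← sNorm_two_sq, ← sNorm_two_sq] at e5
  have e6 : sNorm 2 B ^ 2 ≤ sNorm 2 B * sNorm 2 A := by
    apply le_of_sq_le_sq _ (by positivity)
    rw [mul_pow]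
    exact e5
  rcases eq_or_lt_of_le hB0 with h0 | h0
  · rw [← h0]
    exact hA0
  · rw [sq] at e6
    exact le_of_mul_le_mul_left e6 h0

end Pool.Schatten.Rnd
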