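import Mathlib

/-!
# Dyadic levels
-/

set_option autoImplicit false
open Finset

namespace Pool.Schatten.Rnd

/-- dyadic levels of a family of weights -/
lemma exists_lev {J : Type} [Fintype J] {w : J → ℝ} (h0 : ∀ j, 0 ≤ w j) (hsum : ∑ j, w j ≤ 1)
    {κ : ℕ} (hcard : Fintype.card J ≤ 2 ^ κ) :
    ∃ lev : J → ℕ, (∀ j, lev j ≤ κ) ∧ (∀ j, w j ≤ (1 / 2 : ℝ) ^ lev j) ∧
      (∀ k, (1 / 2 : ℝ) ^ k * (univ.filter fun j => lev j = k).card ≤ 2) ∧
      ∑ k ∈ range (κ + 1), (1 / 2 : ℝ) ^ k * (univ.filter fun j => lev j = k).card ≤ 3 := by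
  classical
  set lev : J → ℕ := fun j => Nat.findGreatest (fun k => w j ≤ (1 / 2 : ℝ) ^ k) κ with hlev
  have hle1 : ∀ j, w j ≤ 1 := fun j =>
    (single_le_sum (f := w) (fun i _ => h0 i) (mem_univ j)).trans hsum
  have h1 : ∀ j, lev j ≤ κ := fun j => Nat.findGreatest_le κ
  have h2 : ∀ j, w j ≤ (1 / 2 : ℝ) ^ lev j := fun j =>
    Nat.findGreatest_spec (P := fun k => w j ≤ (1 / 2 : ℝ) ^ k) (Nat.zero_le κ)
      (by simpa using hle1 j)
  have h3 : ∀ j, lev j < κ → (1 / 2 : ℝ) ^ (lev j + 1) < w j := by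
    intro j hj
    have := Nat.findGreatest_is_greatest (P := fun k => w j ≤ (1 / 2 : ℝ) ^ k)
      (show Nat.findGreatest (fun k => w j ≤ (1 / 2 : ℝ) ^ k) κ < lev j + 1 from
        Nat.lt_succ_self _) (show lev j + 1 ≤ κ by omega)
    exact not_le.1 this
  set Λ : ℕ → ℝ := fun k => ∑ j ∈ univ.filter (fun j => lev j = k), w j with hΛ
  have hΛ1 : ∑ k ∈ range (κ + 1), Λ k ≤ 1 := by
    rw [hΛ, sum_fiberwise_of_maps_to (fun j _ => mem_range.2 (Nat.lt_succ_of_le (h1 j)))]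
    exact hsum
  have hΛ0 : ∀ k, 0 ≤ Λ k := fun k => sum_nonneg fun j _ => h0 j
  have h4 : ∀ k, k < κ → (1 / 2 : ℝ) ^ k * (univ.filter fun j => lev j = k).card ≤ 2 * Λ k := by
    intro k hk
    have h5 : ∑ _j ∈ univ.filter (fun j => lev j = k), (1 / 2 : ℝ) ^ (k + 1) ≤ Λ k := by
      apply sum_le_sum
      intro j hj
      have hj' := (mem_filter.1 hj).2
      have := h3 j (by omega)
      rw [hj'] at this
      exact this.le
    rw [sum_const, nsmul_eq_mul, pow_succ] at h5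
    nlinarith
  have h5 : (1 / 2 : ℝ) ^ κ * (univ.filter fun j => lev j = κ).card ≤ 1 := by
    have h6 : ((univ.filter fun j => lev j = κ).card : ℝ) ≤ 2 ^ κ := by
      have h7 : (univ.filter fun j => lev j = κ).card ≤ 2 ^ κ :=
        (card_le_univ _).trans hcard
      exact_mod_cast h7
    calc (1 / 2 : ℝ) ^ κ * (univ.filter fun j => lev j = κ).card ≤ (1 / 2 : ℝ) ^ κ * 2 ^ κ :=
          mul_le_mul_of_nonneg_left h6 (by positivity)
      _ = 1 := by rw [← mul_pow]; norm_num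
  refine ⟨lev, h1, h2, ?_, ?_⟩
  · intro k
    rcases lt_trichotomy k κ with hk | hk | hk
    · have h8 : Λ k ≤ 1 :=
        (single_le_sum (f := Λ) (fun i _ => hΛ0 i) (mem_range.2 (by omega))).trans hΛ1
      linarith [h4 k hk]
    · rw [hk]
      linarith
    · have : (univ.filter fun j => lev j = k) = ∅ := by
        apply filter_eq_empty_iff.2
        intro j _ hj
        have := h1 j
        omega
      rw [this, card_empty, Nat.cast_zero, mul_zero]
      norm_num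
  · rw [sum_range_succ]
    have h9 : ∑ k ∈ range κ, (1 / 2 : ℝ) ^ k * (univ.filter fun j => lev j = k).card ≤
        ∑ k ∈ range κ, 2 * Λ k := sum_le_sum fun k hk => h4 k (mem_range.1 hk)
    rw [← mul_sum] at h9
    have h10 : ∑ k ∈ range κ, Λ k ≤ 1 := by
      rw [sum_range_succ] at hΛ1
      linarith [hΛ0 κ]
    linarith

/-- the decomposition of a double sum by the smaller level -/
lemma sum_levels {J J' : Type} [Fintype J] [Fintype J'] (lev : J → ℕ) (lev' : J' → ℕ) {κ : ℕ}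
    (h1 : ∀ j, lev j ≤ κ) (h2 : ∀ j, lev' j ≤ κ) (X : J → J' → ℝ) :
    ∑ a, ∑ b, X a b = ∑ k ∈ range (κ + 1),
      ((∑ a ∈ univ.filter (fun a => lev a = k), ∑ b ∈ univ.filter (fun b => k ≤ lev' b), X a b) +
        ∑ a ∈ univ.filter (fun a => k < lev a), ∑ b ∈ univ.filter (fun b => lev' b = k), X a b) := by
  classical
  simp only [sum_filter]
  have e1 : ∀ k, ((∑ a, if lev a = k then ∑ b, (if k ≤ lev' b then X a b else 0) else 0) +
      ∑ a, if k < lev a then ∑ b, (if lev' b = k then X a b else 0) else 0) =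
      ∑ a, ∑ b, ((if lev a = k ∧ k ≤ lev' b then X a b else 0) +
        (if k < lev a ∧ lev' b = k then X a b else 0)) := by
    intro k
    rw [← sum_add_distrib]
    apply sum_congr rfl
    intro a _
    rw [sum_add_distrib]
    congr 1
    · by_cases h : lev a = k <;> simp [h]
    · by_cases h : k < lev a <;> simp [h]
  simp only [e1]
  symm
  rw [sum_comm]
  apply sum_congr rfl
  intro a _
  rw [sum_comm]
  apply sum_congr rfl
  intro b _
  rcases le_or_gt (lev a) (lev' b) with h | h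
  · rw [sum_eq_single (lev a)]
    · rw [if_pos ⟨rfl, h⟩, if_neg (by omega), add_zero]
    · intro k _ hk
      rw [if_neg (by omega), if_neg (by omega), add_zero]
    · intro hk
      exact (hk (mem_range.2 (Nat.lt_succ_of_le (h1 a)))).elim
  · rw [sum_eq_single (lev' b)]
    · rw [if_neg (by omega), if_pos ⟨h, rfl⟩, zero_add]
    · intro k _ hk
      rw [if_neg (by omega), if_neg (by omega), add_zero]
    · intro hk
      exact (hk (mem_range.2 (Nat.lt_succ_of_le (h2 b)))).elim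

/-- the sum over one strip -/
lemma strip_le {J J' : Type} [Fintype J] [Fintype J'] {lev : J → ℕ} {lev' : J' → ℕ} {κ : ℕ}
    (h2 : ∀ j, lev' j ≤ κ) {w : J → ℝ} {w' : J' → ℝ}
    (hw0' : ∀ j, 0 ≤ w' j)
    (hw : ∀ j, w j ≤ (1 / 2 : ℝ) ^ lev j) (hw' : ∀ j, w' j ≤ (1 / 2 : ℝ) ^ lev' j)
    {k : ℕ} (hn : (1 / 2 : ℝ) ^ k * (univ.filter fun j => lev j = k).card ≤ 2)
    (hn' : ∑ k ∈ range (κ + 1), (1 / 2 : ℝ) ^ k * (univ.filter fun j => lev' j = k).card ≤ 3)
    {c : J → J' → ℝ} (hc0 : ∀ a b, 0 ≤ c a b) {α β : ℝ} (hα : 0 ≤ α) (hβ : 0 ≤ β)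
    (hc : ∀ (K : Finset J) (K' : Finset J'), ∑ a ∈ K, ∑ b ∈ K', c a b ≤
      512 * (α * K.card * K'.card + β * (K.card + K'.card))) :
    ∑ a ∈ univ.filter (fun a => lev a = k), ∑ b ∈ univ.filter (fun b => k ≤ lev' b),
      w a * w' b * c a b ≤ 512 * (6 * α + 7 * β * (1 / 2 : ℝ) ^ k) := by
  classical
  set n : ℝ := ((univ.filter fun j => lev j = k).card : ℝ) with hnn
  set n' : ℕ → ℝ := fun k => ((univ.filter fun j => lev' j = k).card : ℝ) with hnn'
  have hn0 : 0 ≤ n := Nat.cast_nonneg _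
  have hn0' : ∀ k, 0 ≤ n' k := fun k => Nat.cast_nonneg _
  have e1 : ∀ a, ∑ b ∈ univ.filter (fun b => k ≤ lev' b), w a * w' b * c a b =
      ∑ k' ∈ Icc k κ, ∑ b ∈ univ.filter (fun b => lev' b = k'), w a * w' b * c a b := by
    intro a
    rw [← sum_fiberwise_of_maps_to (s := univ.filter (fun b => k ≤ lev' b)) (t := Icc k κ)
      (g := lev') (fun b hb => mem_Icc.2 ⟨(mem_filter.1 hb).2, h2 b⟩)]
    apply sum_congr rfl
    intro k' hk'
    rw [filter_filter]
    apply sum_congr _ fun _ _ => rfl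
    ext b
    simp only [mem_filter, mem_univ, true_and]
    have := (mem_Icc.1 hk').1
    omega
  simp only [e1]
  rw [sum_comm]
  have e2 : ∀ k' ∈ Icc k κ, ∑ a ∈ univ.filter (fun a => lev a = k),
      ∑ b ∈ univ.filter (fun b => lev' b = k'), w a * w' b * c a b ≤
      (1 / 2 : ℝ) ^ k * (1 / 2 : ℝ) ^ k' * (512 * (α * n * n' k' + β * (n + n' k'))) := by
    intro k' _
    calc _ ≤ ∑ a ∈ univ.filter (fun a => lev a = k), ∑ b ∈ univ.filter (fun b => lev' b = k'),
          (1 / 2 : ℝ) ^ k * (1 / 2 : ℝ) ^ k' * c a b := by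
          apply sum_le_sum
          intro a ha
          apply sum_le_sum
          intro b hb
          apply mul_le_mul_of_nonneg_right _ (hc0 a b)
          have h3 := hw a
          have h4 := hw' b
          rw [(mem_filter.1 ha).2] at h3
          rw [(mem_filter.1 hb).2] at h4
          exact mul_le_mul h3 h4 (hw0' b) (by positivity)
      _ = (1 / 2 : ℝ) ^ k * (1 / 2 : ℝ) ^ k' * ∑ a ∈ univ.filter (fun a => lev a = k),
            ∑ b ∈ univ.filter (fun b => lev' b = k'), c a b := by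
          simp only [mul_sum]
      _ ≤ _ := mul_le_mul_of_nonneg_left (hc _ _) (by positivity)
  refine (sum_le_sum e2).trans ?_
  have hg : ∑ k' ∈ Icc k κ, (1 / 2 : ℝ) ^ k' ≤ 2 * (1 / 2 : ℝ) ^ k := by
    rcases le_or_gt k κ with hk | hk
    · obtain ⟨r, rfl⟩ := Nat.exists_eq_add_of_le hk
      have h5 : ∀ r : ℕ, ∑ k' ∈ Icc k (k + r), (1 / 2 : ℝ) ^ k' =
          2 * (1 / 2 : ℝ) ^ k - (1 / 2 : ℝ) ^ (k + r) := by
        intro r
        induction r with
        | zero => simp; ring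
        | succ r ih =>
          rw [← add_assoc, sum_Icc_succ_top (by omega), ih, pow_succ]
          ring
      rw [h5 r]
      have : (0 : ℝ) ≤ (1 / 2 : ℝ) ^ (k + r) := by positivity
      linarith
    · rw [Icc_eq_empty (by omega), sum_empty]
      positivity
  have hn3 : ∑ k' ∈ Icc k κ, (1 / 2 : ℝ) ^ k' * n' k' ≤ 3 := by
    refine le_trans ?_ hn'
    apply sum_le_sum_of_subset_of_nonneg
    · intro x hx
      rw [mem_range]
      have := (mem_Icc.1 hx).2
      omega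
    · intro i _ _
      positivity
  have e3 : ∑ k' ∈ Icc k κ, (1 / 2 : ℝ) ^ k * (1 / 2 : ℝ) ^ k' *
      (512 * (α * n * n' k' + β * (n + n' k'))) =
      512 * (α * ((1 / 2 : ℝ) ^ k * n) * (∑ k' ∈ Icc k κ, (1 / 2 : ℝ) ^ k' * n' k') +
        β * (((1 / 2 : ℝ) ^ k * n) * (∑ k' ∈ Icc k κ, (1 / 2 : ℝ) ^ k') +
          (1 / 2 : ℝ) ^ k * (∑ k' ∈ Icc k κ, (1 / 2 : ℝ) ^ k' * n' k'))) := by
    simp only [mul_sum, mul_add, ← sum_add_distrib]
    apply sum_congr rfl
    intro k' _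
    ring
  rw [e3]
  set x := (1 / 2 : ℝ) ^ k * n with hx
  set y := ∑ k' ∈ Icc k κ, (1 / 2 : ℝ) ^ k' * n' k' with hy
  set z := ∑ k' ∈ Icc k κ, (1 / 2 : ℝ) ^ k' with hz
  have hx0 : 0 ≤ x := by positivity
  have hy0 : 0 ≤ y := sum_nonneg fun i _ => by positivity
  have hz0 : 0 ≤ z := sum_nonneg fun i _ => by positivity
  have f1 : x * y ≤ 2 * 3 := mul_le_mul hn hn3 hy0 (by norm_num)
  have f2 : x * z ≤ 2 * (2 * (1 / 2 : ℝ) ^ k) := mul_le_mul hn hg hz0 (by norm_num)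
  have f3 : (1 / 2 : ℝ) ^ k * y ≤ (1 / 2 : ℝ) ^ k * 3 := mul_le_mul_of_nonneg_left hn3 (by positivity)
  have f4 : α * x * y ≤ α * (2 * 3) := by
    rw [mul_assoc]
    exact mul_le_mul_of_nonneg_left f1 hα
  have f5 : β * (x * z + (1 / 2 : ℝ) ^ k * y) ≤ β * (2 * (2 * (1 / 2 : ℝ) ^ k) + (1 / 2 : ℝ) ^ k * 3) :=
    mul_le_mul_of_nonneg_left (add_le_add f2 f3) hβ
  calc 512 * (α * x * y + β * (x * z + (1 / 2 : ℝ) ^ k * y))
      ≤ 512 * (α * (2 * 3) + β * (2 * (2 * (1 / 2 : ℝ) ^ k) + (1 / 2 : ℝ) ^ k * 3)) := by linarith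
    _ = 512 * (6 * α + 7 * β * (1 / 2 : ℝ) ^ k) := by ring

end Pool.Schatten.Rnd
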