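import Pool.Agent.Work.MP_9a3a53_rnd.Exist

/-!
# A good orthonormal family of matrices
-/

set_option autoImplicit false
open Finset Module
open scoped Matrix.Norms.L2Operator

namespace Pool.Schatten.Rnd

section abstr

variable {E : Type*} [NormedAddCommGroup E] [InnerProductSpace ℝ E] {d : ℕ}

/-- the lower bound for almost orthonormal families -/
lemma lower_of_gram {f : Fin d → E} (h1 : ∀ i, ‖f i‖ = 1)
    (hG : ∑ i, ∑ j ∈ univ.erase i, inner ℝ (f i) (f j) ^ 2 ≤ 1 / 4) (c : Fin d → ℝ) :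
    ∑ i, c i ^ 2 ≤ 2 * ‖∑ i, c i • f i‖ ^ 2 := by
  set S := ∑ i, c i ^ 2 with hS
  have hS0 : 0 ≤ S := sum_nonneg fun i _ => sq_nonneg _
  rcases eq_or_lt_of_le hS0 with h0 | h0
  · rw [← h0]
    positivity
  · have e1 : ‖∑ i, c i • f i‖ ^ 2 = S + ∑ i, ∑ j ∈ univ.erase i, c i * c j * inner ℝ (f i) (f j) := by
      rw [← real_inner_self_eq_norm_sq, sum_inner, hS, ← sum_add_distrib]
      apply sum_congr rfl
      intro i _
      rw [inner_sum, ← add_sum_erase _ _ (mem_univ i)]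
      congr 1
      · rw [inner_smul_left, inner_smul_right, real_inner_self_eq_norm_sq, h1]
        simp [sq]
      · apply sum_congr rfl
        intro j _
        rw [inner_smul_left, inner_smul_right]
        simp only [conj_trivial]
        ring
    have e2 : ∀ i j, -((c i ^ 2 * c j ^ 2) / (4 * S) + S * inner ℝ (f i) (f j) ^ 2) ≤
        c i * c j * inner ℝ (f i) (f j) := by
      intro i j
      have h3 : 0 ≤ (c i * c j + 2 * S * inner ℝ (f i) (f j)) ^ 2 / (4 * S) := by positivity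
      have h4 : (c i * c j + 2 * S * inner ℝ (f i) (f j)) ^ 2 / (4 * S) =
          (c i ^ 2 * c j ^ 2) / (4 * S) + S * inner ℝ (f i) (f j) ^ 2 +
            c i * c j * inner ℝ (f i) (f j) := by
        field_simp
        ring
      rw [h4] at h3
      linarith
    have e3 : -(S / 4 + S * (1 / 4)) ≤ ∑ i, ∑ j ∈ univ.erase i, c i * c j * inner ℝ (f i) (f j) := by
      have h5 : ∑ i, ∑ j ∈ univ.erase i, -((c i ^ 2 * c j ^ 2) / (4 * S) +
          S * inner ℝ (f i) (f j) ^ 2) ≤
          ∑ i, ∑ j ∈ univ.erase i, c i * c j * inner ℝ (f i) (f j) :=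
        sum_le_sum fun i _ => sum_le_sum fun j _ => e2 i j
      refine le_trans ?_ h5
      simp only [sum_neg_distrib, sum_add_distrib, ← mul_sum]
      have h6 : ∑ i, ∑ j ∈ univ.erase i, (c i ^ 2 * c j ^ 2) / (4 * S) ≤ S / 4 := by
        calc ∑ i, ∑ j ∈ univ.erase i, (c i ^ 2 * c j ^ 2) / (4 * S)
            ≤ ∑ i, ∑ j, (c i ^ 2 * c j ^ 2) / (4 * S) := by
              apply sum_le_sum
              intro i _
              apply sum_le_sum_of_subset_of_nonneg (erase_subset _ _)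
              intro _ _ _
              positivity
          _ = S / 4 := by
              simp only [← sum_div, ← mul_sum, ← hS, ← sum_mul]
              field_simp
      have h7 : S * ∑ i, ∑ j ∈ univ.erase i, inner ℝ (f i) (f j) ^ 2 ≤ S * (1 / 4) :=
        mul_le_mul_of_nonneg_left hG hS0
      linarith
    rw [e1]
    linarith

/-- orthonormalisation -/
lemma exists_orthonormal {f : Fin d → E} (h1 : ∀ c : Fin d → ℝ,
    ∑ i, c i ^ 2 ≤ 2 * ‖∑ i, c i • f i‖ ^ 2) :
    ∃ h : Fin d → E, Orthonormal ℝ h ∧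
      ∀ v, ∑ i, inner ℝ (h i) v ^ 2 ≤ 2 * ∑ i, inner ℝ (f i) v ^ 2 := by
  have hli : LinearIndependent ℝ f := by
    rw [Fintype.linearIndependent_iff]
    intro c hc i
    have h2 := h1 c
    rw [hc, norm_zero, zero_pow two_ne_zero, mul_zero] at h2
    have h3 : c i ^ 2 ≤ ∑ i, c i ^ 2 := single_le_sum (f := fun i => c i ^ 2)
      (fun _ _ => sq_nonneg _) (mem_univ i)
    have h4 : c i ^ 2 = 0 := le_antisymm (h3.trans h2) (sq_nonneg _)
    exact pow_eq_zero_iff two_ne_zero |>.1 h4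
  set V := Submodule.span ℝ (Set.range f) with hV
  have hfin : finrank ℝ V = d := by
    rw [hV, finrank_span_eq_card hli, Fintype.card_fin]
  have : FiniteDimensional ℝ V := FiniteDimensional.span_of_finite ℝ (Set.finite_range f)
  set b := stdOrthonormalBasis ℝ V with hb
  set h : Fin d → E := fun i => (b (Fin.cast hfin.symm i) : E) with hh
  have hon : Orthonormal ℝ h := by
    have h2 : Orthonormal ℝ (fun i : Fin (finrank ℝ V) => (b i : E)) :=
      b.orthonormal.comp_linearIsometry V.subtypeₗᵢ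
    exact h2.comp _ (Fin.cast_injective _)
  refine ⟨h, hon, fun v => ?_⟩
  set w : E := ∑ i, (inner ℝ (h i) v : ℝ) • h i with hw
  set T := ∑ i, inner ℝ (h i) v ^ 2 with hT
  have hT0 : 0 ≤ T := sum_nonneg fun _ _ => sq_nonneg _
  have hwV : w ∈ V := by
    apply Submodule.sum_mem
    intro i _
    apply Submodule.smul_mem
    exact (b (Fin.cast hfin.symm i)).2
  obtain ⟨c, hc⟩ := (Submodule.mem_span_range_iff_exists_fun ℝ).1 hwV
  have e1 : ‖w‖ ^ 2 = T := by
    rw [← real_inner_self_eq_norm_sq, hw, hon.inner_sum]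
    apply sum_congr rfl
    intro i _
    simp [sq]
  have e2 : inner ℝ w v = T := by
    rw [hw, sum_inner]
    apply sum_congr rfl
    intro i _
    rw [inner_smul_left]
    simp [sq]
  have e3 : T = ∑ i, c i * inner ℝ (f i) v := by
    rw [← e2, ← hc, sum_inner]
    apply sum_congr rfl
    intro i _
    rw [inner_smul_left]
    simp
  have e4 : T ^ 2 ≤ (∑ i, c i ^ 2) * ∑ i, inner ℝ (f i) v ^ 2 := by
    conv_lhs => rw [e3]
    exact sum_mul_sq_le_sq_mul_sq _ _ _
  have e5 : ∑ i, c i ^ 2 ≤ 2 * T := by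
    have := h1 c
    rwa [hc, e1] at this
  have hF0 : 0 ≤ ∑ i, inner ℝ (f i) v ^ 2 := sum_nonneg fun _ _ => sq_nonneg _
  rcases eq_or_lt_of_le hT0 with h0 | h0
  · rw [← h0]
    positivity
  · have e6 : T ^ 2 ≤ T * (2 * ∑ i, inner ℝ (f i) v ^ 2) := by
      calc T ^ 2 ≤ (∑ i, c i ^ 2) * ∑ i, inner ℝ (f i) v ^ 2 := e4
        _ ≤ (2 * T) * ∑ i, inner ℝ (f i) v ^ 2 := mul_le_mul_of_nonneg_right e5 hF0
        _ = _ := by ring
    rw [sq] at e6
    exact le_of_mul_le_mul_left e6 h0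

end abstr

variable {m d : ℕ}

/-- rank one matrices as vectors -/
noncomputable def tens (u v : EuclideanSpace ℝ (Fin m)) : EuclideanSpace ℝ (Fin m × Fin m) :=
  WithLp.toLp 2 fun x => u x.1 * v x.2

lemma tens_apply (u v : EuclideanSpace ℝ (Fin m)) (x : Fin m × Fin m) :
    tens u v x = u x.1 * v x.2 := rfl

/-- the matrix with given orthonormal rows -/
def rowMat {r : ℕ} (u : Fin r → EuclideanSpace ℝ (Fin m)) : Matrix (Fin r) (Fin m) ℝ :=
  fun a x => u a x

lemma norm_rowMat {r : ℕ} {u : Fin r → EuclideanSpace ℝ (Fin m)} (hu : Orthonormal ℝ u) :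
    ‖rowMat u‖ ≤ 1 := by
  rw [Matrix.l2_opNorm_def]
  apply ContinuousLinearMap.opNorm_le_bound _ zero_le_one
  intro x
  rw [one_mul]
  apply le_of_sq_le_sq _ (norm_nonneg _)
  have h1 := hu.sum_inner_products_le (s := univ) x
  refine le_trans (le_of_eq ?_) h1
  rw [EuclideanSpace.norm_sq_eq]
  apply sum_congr rfl
  intro a _
  rw [Real.norm_eq_abs, Real.norm_eq_abs, sq_abs, sq_abs]
  congr 1
  simp [PiLp.inner_apply, rowMat, Matrix.toLpLin_apply, Matrix.mulVec, dotProduct, mul_comm]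

lemma Q_eq {r s : ℕ} (ω : Fin d → Bits m) (U : Matrix (Fin r) (Fin m) ℝ)
    (V : Matrix (Fin m) (Fin s) ℝ) : Q ω U V = ∑ a : Fin r, ∑ b : Fin s, ∑ i,
      (∑ x : Fin m × Fin m, (U a x.1 * V x.2 b) * sg (ω i x)) ^ 2 := by
  unfold Q
  rw [sum_comm, Fintype.sum_prod_type]

/-- The uniform property of a family of matrices. -/
def Unif (m d : ℕ) (h : Fin d → EuclideanSpace ℝ (Fin m × Fin m)) : Prop :=
  ∀ (κ κ' : Type) [Fintype κ] [Fintype κ'] (u : κ → EuclideanSpace ℝ (Fin m))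
    (v : κ' → EuclideanSpace ℝ (Fin m)), Orthonormal ℝ u → Orthonormal ℝ v →
    ∑ a, ∑ b, ∑ i, inner ℝ (h i) (tens (u a) (v b)) ^ 2 ≤
      512 * ((d : ℝ) * Fintype.card κ * Fintype.card κ' / (m : ℝ) ^ 2 +
        ((Fintype.card κ : ℝ) + Fintype.card κ') / m)

/-- **a good orthonormal family** -/
theorem exists_good (hm : 1 ≤ m) (hd : 4 * d ≤ m) :
    ∃ h : Fin d → EuclideanSpace ℝ (Fin m × Fin m), Orthonormal ℝ h ∧ Unif m d h := by
  obtain ⟨ω, hω, hGr⟩ := exists_signs (d := d) hm hd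
  have hm' : (1 : ℝ) ≤ m := by exact_mod_cast hm
  have hm0 : (m : ℝ) ≠ 0 := by positivity
  set f : Fin d → EuclideanSpace ℝ (Fin m × Fin m) := fun i =>
    WithLp.toLp 2 fun x => sg (ω i x) / m with hf
  have hf1 : ∀ i, ‖f i‖ = 1 := by
    intro i
    rw [EuclideanSpace.norm_eq, Real.sqrt_eq_one]
    simp only [hf, Real.norm_eq_abs, sq_abs, div_pow, sg_sq, sum_const, card_univ,
      Fintype.card_prod, Fintype.card_fin, nsmul_eq_mul]
    push_cast
    field_simp
  have hfin : ∀ i j, inner ℝ (f i) (f j) = (∑ x, sg (ω j x) * sg (ω i x)) / (m : ℝ) ^ 2 := by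
    intro i j
    rw [PiLp.inner_apply, sum_div]
    apply sum_congr rfl
    intro x _
    simp only [hf, RCLike.inner_apply, conj_trivial]
    field_simp
  have hG : ∑ i, ∑ j ∈ univ.erase i, inner ℝ (f i) (f j) ^ 2 ≤ 1 / 4 := by
    have e1 : ∑ i, ∑ j ∈ univ.erase i, inner ℝ (f i) (f j) ^ 2 = Gr ω / (m : ℝ) ^ 4 := by
      rw [Gr, sum_div]
      apply sum_congr rfl
      intro i _
      rw [sum_div]
      apply sum_congr rfl
      intro j _
      rw [hfin, div_pow]
      congr 1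
      ring
    rw [e1, div_le_iff₀ (by positivity)]
    linarith
  obtain ⟨h, hon, hh⟩ := exists_orthonormal (lower_of_gram hf1 hG)
  refine ⟨h, hon, ?_⟩
  intro κ κ' _ _ u v hu hv
  classical
  rcases isEmpty_or_nonempty κ with hκ | hκ
  · rw [univ_eq_empty, sum_empty]
    positivity
  rcases isEmpty_or_nonempty κ' with hκ' | hκ'
  · simp only [univ_eq_empty, sum_empty, sum_const_zero]
    positivity
  set r := Fintype.card κ with hr
  set s := Fintype.card κ' with hs
  set eκ := Fintype.equivFin κ with heκ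
  set eκ' := Fintype.equivFin κ' with heκ'
  have hr1 : 1 ≤ r := Fintype.card_pos
  have hs1 : 1 ≤ s := Fintype.card_pos
  have hrm : r ≤ m := by
    have := hu.linearIndependent.fintype_card_le_finrank
    rwa [finrank_euclideanSpace_fin] at this
  have hsm : s ≤ m := by
    have := hv.linearIndependent.fintype_card_le_finrank
    rwa [finrank_euclideanSpace_fin] at this
  have hu' : Orthonormal ℝ (u ∘ eκ.symm) := hu.comp _ eκ.symm.injective
  have hv' : Orthonormal ℝ (v ∘ eκ'.symm) := hv.comp _ eκ'.symm.injective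
  have hV : ‖(rowMat (v ∘ eκ'.symm)).transpose‖ ≤ 1 := by
    rw [← Matrix.conjTranspose_eq_transpose_of_trivial, Matrix.l2_opNorm_conjTranspose]
    exact norm_rowMat hv'
  have hQ := hω r s hr1 hrm hs1 hsm _ _ (norm_rowMat hu') hV
  have e2 : Q ω (rowMat (u ∘ eκ.symm)) (rowMat (v ∘ eκ'.symm)).transpose =
      (m : ℝ) ^ 2 * ∑ a, ∑ b, ∑ i, inner ℝ (f i) (tens (u a) (v b)) ^ 2 := by
    have e3 : ∀ a b i, inner ℝ (f i) (tens (u a) (v b)) =
        (∑ x : Fin m × Fin m, (u a x.1 * v b x.2) * sg (ω i x)) / m := by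
      intro a b i
      rw [PiLp.inner_apply, sum_div]
      apply sum_congr rfl
      intro x _
      simp only [hf, RCLike.inner_apply, conj_trivial, tens_apply]
      ring
    simp only [e3, div_pow, ← sum_div]
    rw [mul_div_cancel₀ _ (by positivity), Q_eq]
    rw [← Equiv.sum_comp eκ.symm (fun a => ∑ b, ∑ i,
      (∑ x : Fin m × Fin m, (u a x.1 * v b x.2) * sg (ω i x)) ^ 2)]
    apply sum_congr rfl
    intro a _
    rw [← Equiv.sum_comp eκ'.symm (fun b => ∑ i,
      (∑ x : Fin m × Fin m, (u (eκ.symm a) x.1 * v b x.2) * sg (ω i x)) ^ 2)]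
    rfl
  calc ∑ a, ∑ b, ∑ i, inner ℝ (h i) (tens (u a) (v b)) ^ 2
      ≤ ∑ a, ∑ b, 2 * ∑ i, inner ℝ (f i) (tens (u a) (v b)) ^ 2 :=
        sum_le_sum fun a _ => sum_le_sum fun b _ => hh _
    _ = 2 * (Q ω (rowMat (u ∘ eκ.symm)) (rowMat (v ∘ eκ'.symm)).transpose / (m : ℝ) ^ 2) := by
        rw [e2, mul_div_cancel_left₀ _ (by positivity)]
        simp only [← mul_sum]
    _ ≤ 2 * (16 * (4 * (d * r * s) + 16 * ((r + s) * m)) / (m : ℝ) ^ 2) := by
        apply mul_le_mul_of_nonneg_left _ (by norm_num)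
        exact div_le_div_of_nonneg_right hQ (by positivity)
    _ ≤ 512 * ((d : ℝ) * r * s / (m : ℝ) ^ 2 + ((r : ℝ) + s) / m) := by
        have e4 : 2 * (16 * (4 * ((d : ℝ) * r * s) + 16 * (((r : ℝ) + s) * m)) / (m : ℝ) ^ 2) =
            128 * ((d : ℝ) * r * s / (m : ℝ) ^ 2) + 512 * (((r : ℝ) + s) / m) := by
          field_simp
          ring
        rw [e4]
        have : 0 ≤ (d : ℝ) * r * s / (m : ℝ) ^ 2 := by positivity
        linarith

end Pool.Schatten.Rnd
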