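import Pool.Agent.Work.MP_9a3a53_an.Block
import Pool.Agent.Work.MP_9a3a53_rnd.Ortho
import Pool.Agent.Work.MP_9a3a53_rnd.Lev

/-!
# The core estimate
-/

set_option autoImplicit false
open Finset Module InnerProductSpace
open scoped ENNReal

namespace Pool.Schatten.Rnd

open Pool.Schatten

variable {N m l d : ℕ}

/-- Hölder for orthonormal systems -/
lemma weights_bound {P : ℝ} (hP : 2 ≤ P) (b : OrthonormalBasis (Fin N) ℝ (EuclideanSpace ℝ (Fin N)))
    {σ : Fin N → ℝ} (hσ : ∀ k, 0 ≤ σ k) {κ : Type} [Fintype κ] {x : κ → EuclideanSpace ℝ (Fin N)}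
    (hx : Orthonormal ℝ x) :
    ∑ a, ∑ k, σ k ^ 2 * inner ℝ (b k) (x a) ^ 2 ≤
      (Fintype.card κ : ℝ) ^ (1 - 2 / P) * (∑ k, σ k ^ P) ^ (2 / P) := by
  have hP0 : 0 < P := by linarith
  rcases isEmpty_or_nonempty κ with hκ | hκ
  · rw [univ_eq_empty, sum_empty]
    have : 0 ≤ ∑ k, σ k ^ P := sum_nonneg fun k _ => Real.rpow_nonneg (hσ k) _
    positivity
  set n : ℝ := ((Fintype.card κ : ℕ) : ℝ) with hn
  have hn0 : 0 < n := by
    rw [hn]
    exact_mod_cast Fintype.card_pos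
  set q : Fin N → ℝ := fun k => ∑ a, inner ℝ (b k) (x a) ^ 2 with hq
  have hq0 : ∀ k, 0 ≤ q k := fun k => sum_nonneg fun _ _ => sq_nonneg _
  have hq1 : ∀ k, q k ≤ 1 := by
    intro k
    have h1 := hx.sum_inner_products_le (s := univ) (b k)
    simp only [Real.norm_eq_abs, sq_abs, b.norm_eq_one, one_pow] at h1
    refine le_trans (le_of_eq ?_) h1
    exact sum_congr rfl fun a _ => by rw [real_inner_comm]
  have hqs : ∑ k, q k = n := by
    rw [hq, sum_comm]
    have : ∀ a, ∑ k, inner ℝ (b k) (x a) ^ 2 = 1 := by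
      intro a
      rw [b.sum_sq_inner_right, hx.norm_eq_one, one_pow]
    rw [sum_congr rfl fun a _ => this a, sum_const, card_univ, nsmul_eq_mul, mul_one]
  have e1 : ∑ a, ∑ k, σ k ^ 2 * inner ℝ (b k) (x a) ^ 2 = n * ∑ k, q k / n * σ k ^ 2 := by
    rw [sum_comm, mul_sum]
    apply sum_congr rfl
    intro k _
    rw [← mul_sum, hq]
    field_simp
  have h2 := Real.rpow_arith_mean_le_arith_mean_rpow univ (fun k => q k / n) (fun k => σ k ^ 2)
    (fun k _ => div_nonneg (hq0 k) hn0.le) (by rw [← sum_div, hqs, div_self hn0.ne'])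
    (fun k _ => sq_nonneg _) (show (1 : ℝ) ≤ P / 2 by linarith)
  have e2 : ∀ k, (σ k ^ 2) ^ (P / 2) = σ k ^ P := by
    intro k
    rw [← Real.rpow_natCast, ← Real.rpow_mul (hσ k)]
    congr 1
    push_cast
    ring
  simp only [e2] at h2
  have h3 : ∑ k, q k / n * σ k ^ P ≤ (∑ k, σ k ^ P) / n := by
    rw [sum_div]
    apply sum_le_sum
    intro k _
    have : 0 ≤ σ k ^ P := Real.rpow_nonneg (hσ k) _
    rw [div_mul_eq_mul_div]
    apply div_le_div_of_nonneg_right _ hn0.le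
    calc q k * σ k ^ P ≤ 1 * σ k ^ P := mul_le_mul_of_nonneg_right (hq1 k) this
      _ = σ k ^ P := one_mul _
  have h4 := h2.trans h3
  set S := ∑ k, q k / n * σ k ^ 2 with hS
  have hS0 : 0 ≤ S := sum_nonneg fun k _ => mul_nonneg (div_nonneg (hq0 k) hn0.le) (sq_nonneg _)
  have hsum0 : 0 ≤ ∑ k, σ k ^ P := sum_nonneg fun k _ => Real.rpow_nonneg (hσ k) _
  have h5 : S ≤ ((∑ k, σ k ^ P) / n) ^ (2 / P) := by
    have h6 := Real.rpow_le_rpow (Real.rpow_nonneg hS0 _) h4 (show 0 ≤ 2 / P by positivity)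
    rw [← Real.rpow_mul hS0] at h6
    have : P / 2 * (2 / P) = 1 := by field_simp
    rwa [this, Real.rpow_one] at h6
  rw [e1]
  calc n * S ≤ n * ((∑ k, σ k ^ P) / n) ^ (2 / P) := mul_le_mul_of_nonneg_left h5 hn0.le
    _ = n ^ (1 - 2 / P) * (∑ k, σ k ^ P) ^ (2 / P) := by
        rw [Real.div_rpow hsum0 hn0.le, Real.rpow_sub hn0, Real.rpow_one]
        field_simp

/-- the Hilbert-Schmidt norm on a subspace of small dimension -/
lemma sum_norm_sq_le {p : ℝ≥0∞} (hp : 2 ≤ p) (hp' : p ≠ ∞) (A : Matrix (Fin N) (Fin N) ℝ)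
    {κ : Type} [Fintype κ] {x : κ → EuclideanSpace ℝ (Fin N)} (hx : Orthonormal ℝ x) :
    ∑ a, ‖Matrix.toEuclideanLin A (x a)‖ ^ 2 ≤
      (Fintype.card κ : ℝ) ^ (1 - 2 / p.toReal) * sNorm p A ^ 2 ∧
    ∑ a, ‖LinearMap.adjoint (Matrix.toEuclideanLin A) (x a)‖ ^ 2 ≤
      (Fintype.card κ : ℝ) ^ (1 - 2 / p.toReal) * sNorm p A ^ 2 := by
  have hp1 : 1 ≤ p := le_trans (by norm_num) hp
  have hP : 2 ≤ p.toReal := by
    have := ENNReal.toReal_mono hp' hp
    simpa using this
  have hP0 : 0 < p.toReal := by linarith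
  obtain ⟨u, v, h⟩ := exists_svd (N := N) (by simp) (Matrix.toEuclideanLin A)
  have e0 : (∑ k : Fin N, (Matrix.toEuclideanLin A).singularValues k ^ p.toReal) ^ (2 / p.toReal) =
      sNorm p A ^ 2 := by
    unfold sNorm
    rw [norm_toLp_fin hP0 (sv_nonneg A), ← Real.rpow_natCast (_ ^ _) 2,
      ← Real.rpow_mul (sum_nonneg fun k _ => Real.rpow_nonneg (sv_nonneg A k) _)]
    congr 1
    push_cast
    ring
  constructor
  · have e1 : ∀ y, ‖Matrix.toEuclideanLin A y‖ ^ 2 =
        ∑ k : Fin N, (Matrix.toEuclideanLin A).singularValues k ^ 2 * inner ℝ (v k) y ^ 2 := by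
      intro y
      rw [← u.sum_sq_inner_right]
      apply sum_congr rfl
      intro k _
      rw [svd_apply h, u.orthonormal.inner_right_fintype, mul_pow]
    simp only [e1]
    have := weights_bound hP v (sv_nonneg A) hx
    rwa [e0] at this
  · have e1 : ∀ y, ‖LinearMap.adjoint (Matrix.toEuclideanLin A) y‖ ^ 2 =
        ∑ k : Fin N, (Matrix.toEuclideanLin A).singularValues k ^ 2 * inner ℝ (u k) y ^ 2 := by
      intro y
      rw [← v.sum_sq_inner_right]
      apply sum_congr rfl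
      intro k _
      rw [LinearMap.adjoint_inner_right, h k, inner_smul_left, mul_pow]
      simp
    simp only [e1]
    have := weights_bound hP u (sv_nonneg A) hx
    rwa [e0] at this

/-- the coefficients of a matrix -/
noncomputable def Th (e : Fin m × Fin l → Fin N) (A : Matrix (Fin N) (Fin N) ℝ)
    (w z : EuclideanSpace ℝ (Fin l)) : EuclideanSpace ℝ (Fin m × Fin m) :=
  WithLp.toLp 2 fun x => inner ℝ (J e x.1 w) (Matrix.toEuclideanLin A (J e x.2 z))

lemma norm_Th_sq (e : Fin m × Fin l → Fin N) (A : Matrix (Fin N) (Fin N) ℝ)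
    (w z : EuclideanSpace ℝ (Fin l)) : ‖Th e A w z‖ ^ 2 =
      ∑ x, ∑ y, inner ℝ (J e x w) (Matrix.toEuclideanLin A (J e y z)) ^ 2 := by
  rw [EuclideanSpace.norm_sq_eq, Fintype.sum_prod_type]
  simp only [Real.norm_eq_abs, sq_abs]
  rfl

/-- Bessel for the coefficients -/
lemma sum_D_le {e : Fin m × Fin l → Fin N} (he : Function.Injective e)
    (A : Matrix (Fin N) (Fin N) ℝ) {h : Fin d → EuclideanSpace ℝ (Fin m × Fin m)}
    (hh : Orthonormal ℝ h) {κ κ' : Type} [Fintype κ] [Fintype κ']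
    {w : κ → EuclideanSpace ℝ (Fin l)} {z : κ' → EuclideanSpace ℝ (Fin l)}
    (hw : Orthonormal ℝ w) (hz : Orthonormal ℝ z) {p : ℝ≥0∞} (hp : 2 ≤ p) (hp' : p ≠ ∞) :
    ∑ a, ∑ b, ∑ i, inner ℝ (h i) (Th e A (w a) (z b)) ^ 2 ≤
      ((m : ℝ) * Fintype.card κ) ^ (1 - 2 / p.toReal) * sNorm p A ^ 2 ∧
    ∑ a, ∑ b, ∑ i, inner ℝ (h i) (Th e A (w a) (z b)) ^ 2 ≤
      ((m : ℝ) * Fintype.card κ') ^ (1 - 2 / p.toReal) * sNorm p A ^ 2 := by
  have h1 : ∑ a, ∑ b, ∑ i, inner ℝ (h i) (Th e A (w a) (z b)) ^ 2 ≤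
      ∑ a, ∑ b, ∑ x, ∑ y, inner ℝ (J e x (w a)) (Matrix.toEuclideanLin A (J e y (z b))) ^ 2 := by
    apply sum_le_sum
    intro a _
    apply sum_le_sum
    intro b _
    have h2 := hh.sum_inner_products_le (s := univ) (Th e A (w a) (z b))
    simp only [Real.norm_eq_abs, sq_abs] at h2
    rwa [norm_Th_sq] at h2
  have how := orthonormal_J he hw
  have hoz := orthonormal_J he hz
  constructor
  · refine h1.trans ?_
    have h3 := (sum_norm_sq_le hp hp' A how).2
    rw [Fintype.card_prod, Fintype.card_fin] at h3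
    push_cast at h3
    refine le_trans ?_ h3
    rw [Fintype.sum_prod_type_right]
    apply sum_le_sum
    intro a _
    have e1 : ∑ b, ∑ x, ∑ y, inner ℝ (J e x (w a)) (Matrix.toEuclideanLin A (J e y (z b))) ^ 2 =
        ∑ x, ∑ k : Fin m × κ', inner ℝ (J e k.1 (z k.2))
          (LinearMap.adjoint (Matrix.toEuclideanLin A) (J e x (w a))) ^ 2 := by
      rw [sum_comm]
      apply sum_congr rfl
      intro x _
      rw [Fintype.sum_prod_type_right]
      apply sum_congr rfl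
      intro b _
      apply sum_congr rfl
      intro y _
      rw [LinearMap.adjoint_inner_right, real_inner_comm]
    rw [e1]
    apply sum_le_sum
    intro x _
    have h4 := hoz.sum_inner_products_le (s := univ)
      (LinearMap.adjoint (Matrix.toEuclideanLin A) (J e x (w a)))
    simpa only [Real.norm_eq_abs, sq_abs] using h4
  · refine h1.trans ?_
    have h3 := (sum_norm_sq_le hp hp' A hoz).1
    rw [Fintype.card_prod, Fintype.card_fin] at h3
    push_cast at h3
    refine le_trans ?_ h3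
    rw [Fintype.sum_prod_type_right, sum_comm]
    apply sum_le_sum
    intro b _
    have e1 : ∑ a, ∑ x, ∑ y, inner ℝ (J e x (w a)) (Matrix.toEuclideanLin A (J e y (z b))) ^ 2 =
        ∑ y, ∑ k : Fin m × κ, inner ℝ (J e k.1 (w k.2))
          (Matrix.toEuclideanLin A (J e y (z b))) ^ 2 := by
      have e2 : ∀ y, ∑ k : Fin m × κ, inner ℝ (J e k.1 (w k.2))
          (Matrix.toEuclideanLin A (J e y (z b))) ^ 2 = ∑ a, ∑ x, inner ℝ (J e x (w a))
          (Matrix.toEuclideanLin A (J e y (z b))) ^ 2 := fun y => by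
        rw [Fintype.sum_prod_type_right]
      simp only [e2]
      rw [sum_comm (s := univ) (t := univ) (f := fun y a => ∑ x, inner ℝ (J e x (w a))
          (Matrix.toEuclideanLin A (J e y (z b))) ^ 2)]
      apply sum_congr rfl
      intro a _
      rw [sum_comm]
    rw [e1]
    apply sum_le_sum
    intro y _
    have h4 := how.sum_inner_products_le (s := univ)
      (Matrix.toEuclideanLin A (J e y (z b)))
    simpa only [Real.norm_eq_abs, sq_abs] using h4

end Pool.Schatten.Rnd
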