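import Pool.Agent.Work.MP_9a3a53_rnd.Random

/-!
# Existence of good sign matrices
-/

set_option autoImplicit false
open Finset Module
open scoped Matrix.Norms.L2Operator

namespace Pool.Schatten.Rnd

variable {m d : ℕ}

lemma five_pow_le (n : ℕ) : (5 : ℝ) ^ n ≤ Real.exp (2 * n) := by
  have h1 : (5 : ℝ) ≤ Real.exp 2 := by
    have h2 := Real.exp_one_gt_d9
    have h3 : Real.exp 2 = Real.exp 1 ^ 2 := by
      rw [← Real.exp_nat_mul]
      norm_num
    rw [h3]
    nlinarith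
  calc (5 : ℝ) ^ n ≤ Real.exp 2 ^ n := pow_le_pow_left₀ (by norm_num) h1 n
    _ = Real.exp (2 * n) := by
      rw [← Real.exp_nat_mul]
      congr 1
      ring

lemma sqrt_two_pow_le (n : ℕ) : Real.sqrt 2 ^ n ≤ Real.exp n := by
  have h1 : Real.sqrt 2 ≤ Real.exp 1 := by
    have h2 := Real.exp_one_gt_d9
    have h3 : Real.sqrt 2 ≤ 2 := by
      rw [Real.sqrt_le_left (by norm_num)]
      norm_num
    linarith
  calc Real.sqrt 2 ^ n ≤ Real.exp 1 ^ n := pow_le_pow_left₀ (Real.sqrt_nonneg _) h1 n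
    _ = Real.exp n := by
      rw [← Real.exp_nat_mul]
      congr 1
      ring

/-- **good sign matrices** -/
theorem exists_signs (hm : 1 ≤ m) (hd : 4 * d ≤ m) :
    ∃ ω : Fin d → Bits m, (∀ r s : ℕ, 1 ≤ r → r ≤ m → 1 ≤ s → s ≤ m →
      ∀ (U : Matrix (Fin r) (Fin m) ℝ) (V : Matrix (Fin m) (Fin s) ℝ), ‖U‖ ≤ 1 → ‖V‖ ≤ 1 →
        Q ω U V ≤ 16 * (4 * (d * r * s) + 16 * ((r + s) * m))) ∧ Gr ω ≤ (m : ℝ) ^ 4 / 4 := by
  have hm' : (1 : ℝ) ≤ m := by exact_mod_cast hm
  have hd' : 4 * (d : ℝ) ≤ m := by exact_mod_cast hd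
  have hA := fun r : ℕ => exists_net (Matrix (Fin r) (Fin m) ℝ)
  have hB := fun s : ℕ => exists_net (Matrix (Fin m) (Fin s) ℝ)
  choose A hA1 hA2 hA3 using hA
  choose B hB1 hB2 hB3 using hB
  set W : (Fin d → Bits m) → ℝ := fun ω =>
    (∑ r ∈ Icc 1 m, ∑ s ∈ Icc 1 m, ∑ U ∈ A r, ∑ V ∈ B s,
      Real.exp (Q ω U V / 4) * Real.exp (-((d : ℝ) * r * s + 4 * ((r + s) * m)))) +
      4 / (m : ℝ) ^ 4 * Gr ω with hW
  set K : ℝ := ((Fintype.card (Fin d → Bits m) : ℕ) : ℝ) with hK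
  have hKeq : K = (2 ^ (m * m)) ^ d := by
    rw [hK]
    simp
  have hKpos : 0 < K := by
    rw [hKeq]
    positivity
  have hpart1 : ∑ ω : Fin d → Bits m, (∑ r ∈ Icc 1 m, ∑ s ∈ Icc 1 m, ∑ U ∈ A r, ∑ V ∈ B s,
      Real.exp (Q ω U V / 4) * Real.exp (-((d : ℝ) * r * s + 4 * ((r + s) * m)))) ≤ K * (1 / 4) := by
    have e1 : ∑ ω : Fin d → Bits m, (∑ r ∈ Icc 1 m, ∑ s ∈ Icc 1 m, ∑ U ∈ A r, ∑ V ∈ B s,
        Real.exp (Q ω U V / 4) * Real.exp (-((d : ℝ) * r * s + 4 * ((r + s) * m)))) =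
        ∑ r ∈ Icc 1 m, ∑ s ∈ Icc 1 m, ∑ U ∈ A r, ∑ V ∈ B s,
          (∑ ω : Fin d → Bits m, Real.exp (Q ω U V / 4)) *
            Real.exp (-((d : ℝ) * r * s + 4 * ((r + s) * m))) := by
      rw [sum_comm]
      apply sum_congr rfl
      intro r _
      rw [sum_comm]
      apply sum_congr rfl
      intro s _
      rw [sum_comm]
      apply sum_congr rfl
      intro U _
      rw [sum_comm]
      apply sum_congr rfl
      intro V _
      rw [sum_mul]
    rw [e1]
    have h2 : ∀ r ∈ Icc 1 m, ∀ s ∈ Icc 1 m, ∑ U ∈ A r, ∑ V ∈ B s,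
        (∑ ω : Fin d → Bits m, Real.exp (Q ω U V / 4)) *
          Real.exp (-((d : ℝ) * r * s + 4 * ((r + s) * m))) ≤ K * Real.exp (-(4 * m)) := by
      intro r hr s hs
      have hr1 : (1 : ℝ) ≤ r := by exact_mod_cast (mem_Icc.1 hr).1
      have hs1 : (1 : ℝ) ≤ s := by exact_mod_cast (mem_Icc.1 hs).1
      have h3 : ∀ U ∈ A r, ∀ V ∈ B s, (∑ ω : Fin d → Bits m, Real.exp (Q ω U V / 4)) *
          Real.exp (-((d : ℝ) * r * s + 4 * ((r + s) * m))) ≤
          K * Real.exp (-(4 * ((r + s) * m))) := by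
        intro U hU V hV
        have h4 := sum_exp_Q (d := d) (hA1 r U hU) (hB1 s V hV)
        rw [mul_pow, ← hKeq, ← pow_mul] at h4
        have h5 := sqrt_two_pow_le (r * s * d)
        have h6 : (∑ ω : Fin d → Bits m, Real.exp (Q ω U V / 4)) ≤
            K * Real.exp ((r * s * d : ℕ) : ℝ) :=
          h4.trans (mul_le_mul_of_nonneg_left h5 hKpos.le)
        calc _ ≤ (K * Real.exp ((r * s * d : ℕ) : ℝ)) *
              Real.exp (-((d : ℝ) * r * s + 4 * ((r + s) * m))) :=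
              mul_le_mul_of_nonneg_right h6 (Real.exp_pos _).le
          _ = K * Real.exp (-(4 * ((r + s) * m))) := by
              rw [mul_assoc, ← Real.exp_add]
              congr 2
              push_cast
              ring
      have hcA : ((A r).card : ℝ) ≤ Real.exp (2 * ((r * m : ℕ) : ℝ)) := by
        have h7 := hA2 r
        rw [finrank_matrix, Fintype.card_fin, Fintype.card_fin, finrank_self, mul_one] at h7
        calc ((A r).card : ℝ) ≤ ((5 ^ (r * m) : ℕ) : ℝ) := by exact_mod_cast h7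
          _ = (5 : ℝ) ^ (r * m) := by push_cast; rfl
          _ ≤ _ := five_pow_le _
      have hcB : ((B s).card : ℝ) ≤ Real.exp (2 * ((m * s : ℕ) : ℝ)) := by
        have h7 := hB2 s
        rw [finrank_matrix, Fintype.card_fin, Fintype.card_fin, finrank_self, mul_one] at h7
        calc ((B s).card : ℝ) ≤ ((5 ^ (m * s) : ℕ) : ℝ) := by exact_mod_cast h7
          _ = (5 : ℝ) ^ (m * s) := by push_cast; rfl
          _ ≤ _ := five_pow_le _
      calc _ ≤ ∑ U ∈ A r, ∑ V ∈ B s, K * Real.exp (-(4 * (((r : ℝ) + s) * m))) :=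
            sum_le_sum fun U hU => sum_le_sum fun V hV => h3 U hU V hV
        _ = ((A r).card : ℝ) * ((B s).card * (K * Real.exp (-(4 * (((r : ℝ) + s) * m))))) := by
            simp only [sum_const, nsmul_eq_mul]
        _ ≤ Real.exp (2 * ((r * m : ℕ) : ℝ)) * (Real.exp (2 * ((m * s : ℕ) : ℝ)) *
              (K * Real.exp (-(4 * (((r : ℝ) + s) * m))))) := by
            apply mul_le_mul hcA _ (by positivity) (by positivity)
            exact mul_le_mul_of_nonneg_right hcB (by positivity)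
        _ = K * Real.exp (-(2 * (((r : ℝ) + s) * m))) := by
            have : Real.exp (2 * ((r * m : ℕ) : ℝ)) * (Real.exp (2 * ((m * s : ℕ) : ℝ)) *
              (K * Real.exp (-(4 * (((r : ℝ) + s) * m))))) =
              K * (Real.exp (2 * ((r * m : ℕ) : ℝ)) * Real.exp (2 * ((m * s : ℕ) : ℝ)) *
                Real.exp (-(4 * (((r : ℝ) + s) * m)))) := by ring
            rw [this, ← Real.exp_add, ← Real.exp_add]
            congr 2
            push_cast
            ring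
        _ ≤ K * Real.exp (-(4 * m)) := by
            apply mul_le_mul_of_nonneg_left _ hKpos.le
            apply Real.exp_le_exp.2
            nlinarith
    calc _ ≤ ∑ _r ∈ Icc 1 m, ∑ _s ∈ Icc 1 m, K * Real.exp (-(4 * m)) :=
          sum_le_sum fun r hr => sum_le_sum fun s hs => h2 r hr s hs
      _ = (m : ℝ) ^ 2 * (K * Real.exp (-(4 * m))) := by
          simp only [sum_const, Nat.card_Icc, Nat.add_sub_cancel, nsmul_eq_mul]
          ring
      _ ≤ K * (1 / 4) := by
          have h8 : (m : ℝ) ^ 2 * Real.exp (-(4 * m)) ≤ 1 / 4 := by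
            have h9 : 1 + 2 * (m : ℝ) ≤ Real.exp (2 * m) := by
              have := Real.add_one_le_exp (2 * (m : ℝ))
              linarith
            have h10 : Real.exp (4 * m) = Real.exp (2 * m) ^ 2 := by
              rw [← Real.exp_nat_mul]
              congr 1
              push_cast
              ring
            have h11 : 4 * (m : ℝ) ^ 2 ≤ Real.exp (4 * m) := by
              rw [h10]
              nlinarith
            rw [Real.exp_neg, ← div_eq_mul_inv, div_le_iff₀ (Real.exp_pos _)]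
            linarith
          calc (m : ℝ) ^ 2 * (K * Real.exp (-(4 * m))) = K * ((m : ℝ) ^ 2 * Real.exp (-(4 * m))) := by
                ring
            _ ≤ _ := mul_le_mul_of_nonneg_left h8 hKpos.le
  have hpart2 : ∑ ω : Fin d → Bits m, 4 / (m : ℝ) ^ 4 * Gr ω ≤ K * (1 / 2) := by
    rw [← mul_sum]
    have h1 := sum_Gr (m := m) (d := d)
    calc 4 / (m : ℝ) ^ 4 * ∑ ω : Fin d → Bits m, Gr ω
        ≤ 4 / (m : ℝ) ^ 4 * (K * (2 * (m : ℝ) ^ 2 * (d : ℝ) ^ 2)) :=
          mul_le_mul_of_nonneg_left h1 (by positivity)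
      _ = K * (8 * (d : ℝ) ^ 2 / (m : ℝ) ^ 2) := by
          field_simp
          ring
      _ ≤ K * (1 / 2) := by
          apply mul_le_mul_of_nonneg_left _ hKpos.le
          rw [div_le_iff₀ (by positivity)]
          nlinarith
  have htot : ∑ ω : Fin d → Bits m, W ω < ∑ _ω : Fin d → Bits m, (1 : ℝ) := by
    rw [hW]
    simp only [sum_add_distrib]
    rw [sum_const, card_univ, nsmul_eq_mul, mul_one, ← hK]
    linarith
  obtain ⟨ω, _, hω⟩ := exists_lt_of_sum_lt htot
  have hnn1 : 0 ≤ ∑ r ∈ Icc 1 m, ∑ s ∈ Icc 1 m, ∑ U ∈ A r, ∑ V ∈ B s,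
      Real.exp (Q ω U V / 4) * Real.exp (-((d : ℝ) * r * s + 4 * ((r + s) * m))) :=
    sum_nonneg fun _ _ => sum_nonneg fun _ _ => sum_nonneg fun _ _ => sum_nonneg fun _ _ => by
      positivity
  have hnn2 : 0 ≤ 4 / (m : ℝ) ^ 4 * Gr ω := mul_nonneg (by positivity) (Gr_nonneg ω)
  refine ⟨ω, ?_, ?_⟩
  · intro r s hr1 hr2 hs1 hs2 U V hU hV
    apply Q_le_of_net ω (hA3 r) (hB3 s) (by positivity) _ hU hV
    intro U' hU' V' hV'
    have h1 : Real.exp (Q ω U' V' / 4) * Real.exp (-((d : ℝ) * r * s + 4 * ((r + s) * m))) ≤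
        ∑ r ∈ Icc 1 m, ∑ s ∈ Icc 1 m, ∑ U ∈ A r, ∑ V ∈ B s,
      Real.exp (Q ω U V / 4) * Real.exp (-((d : ℝ) * r * s + 4 * ((r + s) * m))) := by
      have g1 : ∀ r' s' : ℕ, 0 ≤ ∑ U ∈ A r', ∑ V ∈ B s',
          Real.exp (Q ω U V / 4) * Real.exp (-((d : ℝ) * r' * s' + 4 * ((r' + s') * m))) :=
        fun r' s' => sum_nonneg fun _ _ => sum_nonneg fun _ _ => by positivity
      calc Real.exp (Q ω U' V' / 4) * Real.exp (-((d : ℝ) * r * s + 4 * ((r + s) * m)))
          ≤ ∑ V ∈ B s, Real.exp (Q ω U' V / 4) *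
              Real.exp (-((d : ℝ) * r * s + 4 * ((r + s) * m))) :=
            single_le_sum (f := fun V => Real.exp (Q ω U' V / 4) *
              Real.exp (-((d : ℝ) * r * s + 4 * ((r + s) * m)))) (fun _ _ => by positivity) hV'
        _ ≤ ∑ U ∈ A r, ∑ V ∈ B s, Real.exp (Q ω U V / 4) *
              Real.exp (-((d : ℝ) * r * s + 4 * ((r + s) * m))) :=
            single_le_sum (f := fun U => ∑ V ∈ B s, Real.exp (Q ω U V / 4) *
              Real.exp (-((d : ℝ) * r * s + 4 * ((r + s) * m))))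
              (fun _ _ => sum_nonneg fun _ _ => by positivity) hU'
        _ ≤ ∑ s ∈ Icc 1 m, ∑ U ∈ A r, ∑ V ∈ B s, Real.exp (Q ω U V / 4) *
              Real.exp (-((d : ℝ) * r * s + 4 * ((r + s) * m))) :=
            single_le_sum (f := fun s : ℕ => ∑ U ∈ A r, ∑ V ∈ B s, Real.exp (Q ω U V / 4) *
              Real.exp (-((d : ℝ) * r * s + 4 * ((r + s) * m))))
              (fun s _ => g1 r s) (mem_Icc.2 ⟨hs1, hs2⟩)
        _ ≤ _ :=
            single_le_sum (f := fun r : ℕ => ∑ s ∈ Icc 1 m, ∑ U ∈ A r, ∑ V ∈ B s,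
              Real.exp (Q ω U V / 4) * Real.exp (-((d : ℝ) * r * s + 4 * ((r + s) * m))))
              (fun r _ => sum_nonneg fun s _ => g1 r s) (mem_Icc.2 ⟨hr1, hr2⟩)
    have h2 : Real.exp (Q ω U' V' / 4) * Real.exp (-((d : ℝ) * r * s + 4 * ((r + s) * m))) < 1 := by
      have : W ω < 1 := hω
      rw [hW] at this
      simp only at this
      linarith
    rw [← Real.exp_add, Real.exp_lt_one_iff] at h2
    linarith
  · have h2 : 4 / (m : ℝ) ^ 4 * Gr ω < 1 := by
      have : W ω < 1 := hω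
      rw [hW] at this
      simp only at this
      linarith
    rw [div_mul_eq_mul_div, div_lt_one (by positivity)] at h2
    linarith

end Pool.Schatten.Rnd
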