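import Mathlib

/-!
# An exponential moment for random signs
-/

set_option autoImplicit false
open Finset MeasureTheory ProbabilityTheory

namespace Pool.Schatten.Rnd

/-- the sign of a bit -/
def sg (b : Bool) : ℝ := if b then 1 else -1

lemma sg_sq (b : Bool) : sg b ^ 2 = 1 := by cases b <;> simp [sg]

/-- the standard Gaussian measure on a finite product -/
noncomputable def gam (κ : Type) [Fintype κ] : Measure (κ → ℝ) :=
  Measure.pi (fun _ : κ => gaussianReal 0 1)

lemma integral_exp_lin (t : ℝ) : ∫ x, Real.exp (t * x) ∂(gaussianReal 0 1) =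
    Real.exp (t ^ 2 / 2) := by
  have h := mgf_gaussianReal (p := gaussianReal 0 1) (μ := 0) (v := 1) (X := id)
    (by rw [Measure.map_id]) t
  rw [mgf] at h
  simpa using h

lemma pdf_eq (x : ℝ) : gaussianPDFReal 0 1 x * Real.exp (x ^ 2 / 4) =
    (Real.sqrt (2 * Real.pi))⁻¹ * Real.exp (-(1 / 4) * x ^ 2) := by
  rw [gaussianPDFReal, mul_assoc, ← Real.exp_add]
  simp only [NNReal.coe_one, mul_one, sub_zero]
  congr 2
  ring

lemma integral_exp_sq : ∫ x, Real.exp (x ^ 2 / 4) ∂(gaussianReal 0 1) = Real.sqrt 2 := by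
  rw [integral_gaussianReal_eq_integral_smul one_ne_zero]
  simp only [smul_eq_mul, pdf_eq]
  rw [integral_const_mul, integral_gaussian]
  have hpi : (0 : ℝ) < Real.pi := Real.pi_pos
  have h1 : Real.pi / (1 / 4) = 2 * (2 * Real.pi) := by ring
  rw [h1, Real.sqrt_mul (x := 2) (by norm_num) (2 * Real.pi)]
  have h2 : Real.sqrt (2 * Real.pi) ≠ 0 := (Real.sqrt_pos.2 (by positivity)).ne'
  rw [mul_comm, mul_assoc, mul_inv_cancel₀ h2, mul_one]

lemma integrable_exp_sq : Integrable (fun x : ℝ => Real.exp (x ^ 2 / 4)) (gaussianReal 0 1) := by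
  by_contra h
  have h1 := integral_undef h
  rw [integral_exp_sq] at h1
  have : (0 : ℝ) < Real.sqrt 2 := Real.sqrt_pos.2 (by norm_num)
  linarith

lemma gam_lin {κ : Type} [Fintype κ] (y : κ → ℝ) :
    ∫ g, Real.exp (∑ k, y k * g k) ∂(gam κ) = Real.exp ((∑ k, y k ^ 2) / 2) := by
  have h1 : ∀ g : κ → ℝ, Real.exp (∑ k, y k * g k) = ∏ k, Real.exp (y k * g k) := by
    intro g
    rw [Real.exp_sum]
  simp only [h1]
  unfold gam
  have h2 := integral_fintype_prod_eq_prod (𝕜 := ℝ) (ι := κ) (E := fun _ => ℝ)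
    (fun k x => Real.exp (y k * x)) (μ := fun _ => gaussianReal 0 1)
  rw [h2]
  simp only [integral_exp_lin]
  rw [← Real.exp_sum, sum_div]

lemma gam_integrable_lin {κ : Type} [Fintype κ] (y : κ → ℝ) :
    Integrable (fun g : κ → ℝ => Real.exp (∑ k, y k * g k)) (gam κ) := by
  have h1 : (fun g : κ → ℝ => Real.exp (∑ k, y k * g k)) =
      fun g : κ → ℝ => ∏ k, Real.exp (y k * g k) := by
    ext g
    rw [Real.exp_sum]
  rw [h1]
  exact Integrable.fintype_prod (f := fun (k : κ) (x : ℝ) => Real.exp (y k * x))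
    (fun k => integrable_exp_mul_gaussianReal (y k))

lemma gam_sq {κ : Type} [Fintype κ] :
    ∫ g, Real.exp ((∑ k, g k ^ 2) / 4) ∂(gam κ) = Real.sqrt 2 ^ Fintype.card κ := by
  have h1 : ∀ g : κ → ℝ, Real.exp ((∑ k, g k ^ 2) / 4) = ∏ k, Real.exp (g k ^ 2 / 4) := by
    intro g
    rw [← Real.exp_sum, sum_div]
  simp only [h1]
  unfold gam
  have h2 := integral_fintype_prod_eq_prod (𝕜 := ℝ) (ι := κ) (E := fun _ => ℝ)
    (fun _ x => Real.exp (x ^ 2 / 4)) (μ := fun _ => gaussianReal 0 1)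
  rw [h2]
  simp only [integral_exp_sq, prod_const, card_univ]

lemma gam_integrable_sq {κ : Type} [Fintype κ] :
    Integrable (fun g : κ → ℝ => Real.exp ((∑ k, g k ^ 2) / 4)) (gam κ) := by
  have h1 : (fun g : κ → ℝ => Real.exp ((∑ k, g k ^ 2) / 4)) =
      fun g : κ → ℝ => ∏ k, Real.exp (g k ^ 2 / 4) := by
    ext g
    rw [← Real.exp_sum, sum_div]
  rw [h1]
  exact Integrable.fintype_prod (f := fun (_ : κ) (x : ℝ) => Real.exp (x ^ 2 / 4))
    (fun _ => integrable_exp_sq)

lemma sum_signs_exp {ι : Type} [Fintype ι] [DecidableEq ι] (a : ι → ℝ) :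
    ∑ ε : ι → Bool, Real.exp (∑ j, a j * sg (ε j)) ≤
      2 ^ Fintype.card ι * Real.exp ((∑ j, a j ^ 2) / 2) := by
  have h1 : ∑ ε : ι → Bool, Real.exp (∑ j, a j * sg (ε j)) =
      ∏ j, ∑ b : Bool, Real.exp (a j * sg b) := by
    rw [prod_univ_sum, Fintype.piFinset_univ]
    apply sum_congr rfl
    intro ε _
    rw [Real.exp_sum]
  rw [h1]
  have h2 : ∀ j, ∑ b : Bool, Real.exp (a j * sg b) ≤ 2 * Real.exp (a j ^ 2 / 2) := by
    intro j
    have h3 := Real.cosh_le_exp_half_sq (a j)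
    rw [Real.cosh_eq] at h3
    simp only [Fintype.sum_bool, sg, if_true, mul_one, Bool.false_eq_true, if_false, mul_neg]
    linarith
  calc ∏ j, ∑ b : Bool, Real.exp (a j * sg b) ≤ ∏ j, (2 * Real.exp (a j ^ 2 / 2)) := by
        apply prod_le_prod
        · intro j _
          positivity
        · intro j _
          exact h2 j
    _ = 2 ^ Fintype.card ι * Real.exp ((∑ j, a j ^ 2) / 2) := by
        rw [prod_mul_distrib, prod_const, card_univ, ← Real.exp_sum, sum_div]

/-- **the exponential moment**: for a contraction `L` -/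
theorem exp_moment {ι κ : Type} [Fintype ι] [DecidableEq ι] [Fintype κ] (L : κ → ι → ℝ)
    (hL : ∀ g : κ → ℝ, ∑ j, (∑ k, L k j * g k) ^ 2 ≤ ∑ k, g k ^ 2) :
    ∑ ε : ι → Bool, Real.exp ((∑ k, (∑ j, L k j * sg (ε j)) ^ 2) / 4) ≤
      2 ^ Fintype.card ι * Real.sqrt 2 ^ Fintype.card κ := by
  set c : ℝ := (Real.sqrt 2)⁻¹ with hc
  have hc2 : c ^ 2 = 1 / 2 := by
    rw [hc, inv_pow, Real.sq_sqrt (by norm_num)]
    norm_num
  have h1 : ∀ ε : ι → Bool, Real.exp ((∑ k, (∑ j, L k j * sg (ε j)) ^ 2) / 4) =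
      ∫ g, Real.exp (∑ k, (c * ∑ j, L k j * sg (ε j)) * g k) ∂(gam κ) := by
    intro ε
    rw [gam_lin]
    congr 1
    simp only [mul_pow, hc2]
    rw [← mul_sum]
    ring
  have h2 : ∑ ε : ι → Bool, Real.exp ((∑ k, (∑ j, L k j * sg (ε j)) ^ 2) / 4) =
      ∫ g, ∑ ε : ι → Bool, Real.exp (∑ k, (c * ∑ j, L k j * sg (ε j)) * g k) ∂(gam κ) := by
    rw [integral_finsetSum _ (fun ε _ => gam_integrable_lin _)]
    exact sum_congr rfl fun ε _ => h1 ε
  rw [h2]
  have h3 : ∀ g : κ → ℝ, ∑ ε : ι → Bool, Real.exp (∑ k, (c * ∑ j, L k j * sg (ε j)) * g k) ≤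
      2 ^ Fintype.card ι * Real.exp ((∑ k, g k ^ 2) / 4) := by
    intro g
    have h4 : ∀ ε : ι → Bool, ∑ k, (c * ∑ j, L k j * sg (ε j)) * g k =
        ∑ j, (c * ∑ k, L k j * g k) * sg (ε j) := by
      intro ε
      have e1 : ∀ k, (c * ∑ j, L k j * sg (ε j)) * g k = ∑ j, c * (L k j * g k * sg (ε j)) := by
        intro k
        rw [mul_sum, sum_mul]
        apply sum_congr rfl
        intro j _
        ring
      have e2 : ∀ j, (c * ∑ k, L k j * g k) * sg (ε j) = ∑ k, c * (L k j * g k * sg (ε j)) := by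
        intro j
        rw [mul_sum, sum_mul]
        apply sum_congr rfl
        intro k _
        ring
      simp only [e1, e2]
      rw [sum_comm]
    simp only [h4]
    refine (sum_signs_exp _).trans ?_
    apply mul_le_mul_of_nonneg_left _ (by positivity)
    apply Real.exp_le_exp.2
    simp only [mul_pow, hc2]
    rw [← mul_sum]
    have := hL g
    linarith
  calc ∫ g, ∑ ε : ι → Bool, Real.exp (∑ k, (c * ∑ j, L k j * sg (ε j)) * g k) ∂(gam κ)
      ≤ ∫ g, 2 ^ Fintype.card ι * Real.exp ((∑ k, g k ^ 2) / 4) ∂(gam κ) := by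
        apply integral_mono
        · exact integrable_finsetSum _ fun ε _ => gam_integrable_lin _
        · exact gam_integrable_sq.const_mul _
        · exact h3
    _ = 2 ^ Fintype.card ι * Real.sqrt 2 ^ Fintype.card κ := by
        rw [integral_const_mul, gam_sq]

/-- the second moment -/
theorem second_moment {ι : Type} [Fintype ι] [DecidableEq ι] (b : ι → ℝ) :
    ∑ ε : ι → Bool, (∑ j, b j * sg (ε j)) ^ 2 ≤ 2 ^ Fintype.card ι * (2 * ∑ j, b j ^ 2) := by
  set B := ∑ j, b j ^ 2 with hB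
  have hB0 : 0 ≤ B := sum_nonneg fun j _ => sq_nonneg _
  rcases eq_or_lt_of_le hB0 with h0 | h0
  · have h1 : ∀ j, b j = 0 := by
      intro j
      have := (sum_eq_zero_iff_of_nonneg (fun j _ => sq_nonneg (b j))).1 h0.symm j (mem_univ _)
      exact pow_eq_zero_iff two_ne_zero |>.1 this
    simp [h1, ← h0]
  · have hs : 0 < Real.sqrt B := Real.sqrt_pos.2 h0
    have hs2 : Real.sqrt B ^ 2 = B := Real.sq_sqrt hB0
    have h1 := exp_moment (ι := ι) (κ := Unit) (fun _ j => b j / Real.sqrt B) (by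
      intro g
      simp only [univ_unique, sum_singleton]
      have : ∀ j, (b j / Real.sqrt B * g default) ^ 2 = b j ^ 2 / B * g default ^ 2 := by
        intro j
        rw [mul_pow, div_pow, hs2]
      simp only [this]
      rw [← sum_mul, ← sum_div, ← hB, div_self h0.ne', one_mul])
    simp only [univ_unique, sum_singleton, Fintype.card_unit, pow_one] at h1
    have h2 : ∀ ε : ι → Bool, (∑ j, b j * sg (ε j)) ^ 2 ≤
        4 * B * (Real.exp ((∑ j, b j / Real.sqrt B * sg (ε j)) ^ 2 / 4) - 1) := by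
      intro ε
      have e1 : (∑ j, b j / Real.sqrt B * sg (ε j)) ^ 2 = (∑ j, b j * sg (ε j)) ^ 2 / B := by
        have : ∑ j, b j / Real.sqrt B * sg (ε j) = (∑ j, b j * sg (ε j)) / Real.sqrt B := by
          rw [sum_div]
          apply sum_congr rfl
          intro j _
          ring
        rw [this, div_pow, hs2]
      rw [e1]
      have e2 := Real.add_one_le_exp ((∑ j, b j * sg (ε j)) ^ 2 / B / 4)
      calc (∑ j, b j * sg (ε j)) ^ 2 = 4 * B * ((∑ j, b j * sg (ε j)) ^ 2 / B / 4) := by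
            field_simp
        _ ≤ _ := by
            apply mul_le_mul_of_nonneg_left _ (by positivity)
            linarith
    refine (sum_le_sum fun ε _ => h2 ε).trans ?_
    rw [← mul_sum, sum_sub_distrib]
    simp only [sum_const, card_univ, Fintype.card_pi, Fintype.card_bool, prod_const, nsmul_eq_mul,
      mul_one]
    push_cast
    have h3 : Real.sqrt 2 ≤ 3 / 2 := by
      rw [Real.sqrt_le_left (by norm_num)]
      norm_num
    have h4 : (0 : ℝ) < 2 ^ Fintype.card ι := by positivity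
    calc 4 * B * ((∑ ε : ι → Bool, Real.exp ((∑ j, b j / Real.sqrt B * sg (ε j)) ^ 2 / 4)) -
          2 ^ Fintype.card ι)
        ≤ 4 * B * (2 ^ Fintype.card ι * (3 / 2) - 2 ^ Fintype.card ι) := by
          apply mul_le_mul_of_nonneg_left _ (by positivity)
          have := mul_le_mul_of_nonneg_left h3 h4.le
          linarith
      _ = 2 ^ Fintype.card ι * (2 * B) := by ring

end Pool.Schatten.Rnd
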