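import Mathlib

/-!
# The numerical series
-/

set_option autoImplicit false
open Finset

namespace Pool.Schatten.Rnd

/-- the constant -/
noncomputable def CP (P : ℝ) : ℝ :=
  896 / ((2 : ℝ) ^ (1 / 2 - 1 / P) - 1) + 240 / (1 - (2 : ℝ) ^ (-(1 / P)))

lemma one_lt_two_rpow {P : ℝ} (hP : 2 < P) : 1 < (2 : ℝ) ^ (1 / 2 - 1 / P) := by
  apply Real.one_lt_rpow (by norm_num)
  have : 1 / P < 1 / 2 := one_div_lt_one_div_of_lt (by norm_num) hP
  linarith

lemma two_rpow_lt_one {P : ℝ} (hP : 2 < P) : (2 : ℝ) ^ (-(1 / P)) < 1 := by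
  apply Real.rpow_lt_one_of_one_lt_of_neg (by norm_num)
  have : 0 < 1 / P := by positivity
  linarith

lemma CP_pos {P : ℝ} (hP : 2 < P) : 0 < CP P := by
  have h1 := one_lt_two_rpow hP
  have h2 := two_rpow_lt_one hP
  unfold CP
  have : 0 < (2 : ℝ) ^ (1 / 2 - 1 / P) - 1 := by linarith
  have : 0 < 1 - (2 : ℝ) ^ (-(1 / P)) := by linarith
  positivity

theorem numeric {P : ℝ} (hP : 2 < P) {m d κ : ℕ} (hm : 1 ≤ m) (hκ : (2 : ℝ) ^ κ ≤ 2 * m)
    (hd : Real.sqrt d ≤ (m : ℝ) ^ (1 / P)) :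
    ∑ k ∈ range (κ + 1), 2 * (Real.sqrt (512 * (6 * ((d : ℝ) / (m : ℝ) ^ 2) +
      7 * (1 / (m : ℝ)) * (1 / 2 : ℝ) ^ k)) * ((m : ℝ) * 2 ^ (k + 1)) ^ (1 / 2 - 1 / P)) ≤
      CP P * (m : ℝ) ^ (-(1 / P)) := by
  have hP0 : 0 < P := by linarith
  have hm0 : (0 : ℝ) < m := by exact_mod_cast hm
  set θ : ℝ := 1 / 2 - 1 / P with hθ
  have hPi : 0 < 1 / P := by positivity
  have hPi2 : 1 / P < 1 / 2 := one_div_lt_one_div_of_lt (by norm_num) hP
  have hθ0 : 0 < θ := by linarith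
  have hθ1 : θ ≤ 1 := by linarith
  set β : ℝ := (2 : ℝ) ^ θ with hβ
  have hβ1 : 1 < β := one_lt_two_rpow hP
  have hβ2 : β ≤ 2 := by
    calc β ≤ (2 : ℝ) ^ (1 : ℝ) := Real.rpow_le_rpow_of_exponent_le (by norm_num) hθ1
      _ = 2 := Real.rpow_one 2
  set y : ℝ := Real.sqrt (1 / 2) with hy
  have hy0 : 0 ≤ y := Real.sqrt_nonneg _
  have hy2 : y ^ 2 = 1 / 2 := Real.sq_sqrt (by norm_num)
  set γ : ℝ := (2 : ℝ) ^ (-(1 / P)) with hγ
  have hγ1 : γ < 1 := two_rpow_lt_one hP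
  have hγ0 : 0 ≤ γ := by positivity
  have hβy : β * y = γ := by
    have h1 : y = (2 : ℝ) ^ (-(1 / 2) : ℝ) := by
      rw [hy, Real.sqrt_eq_rpow, Real.rpow_neg (by norm_num), one_div, Real.inv_rpow (by norm_num)]
    rw [hβ, h1, ← Real.rpow_add (by norm_num), hγ]
    congr 1
    rw [hθ]
    ring
  set M : ℝ := (m : ℝ) ^ θ with hM
  have hM0 : 0 ≤ M := by positivity
  set r : ℝ := Real.sqrt m with hr
  have hr0 : 0 < r := Real.sqrt_pos.2 hm0
  have hr2 : r ^ 2 = m := Real.sq_sqrt hm0.le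
  have hterm : ∀ k, 2 * (Real.sqrt (512 * (6 * ((d : ℝ) / (m : ℝ) ^ 2) +
      7 * (1 / (m : ℝ)) * (1 / 2 : ℝ) ^ k)) * ((m : ℝ) * 2 ^ (k + 1)) ^ θ) ≤
      224 * (Real.sqrt d / m) * M * β ^ k + 240 * (M / r) * γ ^ k := by
    intro k
    have h1 : Real.sqrt (512 * (6 * ((d : ℝ) / (m : ℝ) ^ 2) +
        7 * (1 / (m : ℝ)) * (1 / 2 : ℝ) ^ k)) ≤ 56 * (Real.sqrt d / m) + 60 * (y ^ k / r) := by
      rw [Real.sqrt_le_left (by positivity)]
      have e1 : (Real.sqrt d / m) ^ 2 = (d : ℝ) / (m : ℝ) ^ 2 := by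
        rw [div_pow, Real.sq_sqrt (Nat.cast_nonneg _)]
      have e2 : (y ^ k / r) ^ 2 = 1 / (m : ℝ) * (1 / 2 : ℝ) ^ k := by
        rw [div_pow, ← pow_mul, mul_comm k 2, pow_mul, hy2, hr2]
        ring
      have e3 : 0 ≤ (Real.sqrt d / m) * (y ^ k / r) := by positivity
      have e4 : 0 ≤ (Real.sqrt d / m) ^ 2 := sq_nonneg _
      have e5 : 0 ≤ (y ^ k / r) ^ 2 := sq_nonneg _
      calc 512 * (6 * ((d : ℝ) / (m : ℝ) ^ 2) + 7 * (1 / (m : ℝ)) * (1 / 2 : ℝ) ^ k)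
          = 3072 * (Real.sqrt d / m) ^ 2 + 3584 * (y ^ k / r) ^ 2 := by
            rw [e1, e2]
            ring
        _ ≤ (56 * (Real.sqrt d / m) + 60 * (y ^ k / r)) ^ 2 := by nlinarith
    have h2 : ((m : ℝ) * 2 ^ (k + 1)) ^ θ ≤ 2 * (M * β ^ k) := by
      rw [Real.mul_rpow hm0.le (by positivity)]
      have e1 : ((2 : ℝ) ^ (k + 1)) ^ θ = β ^ (k + 1) := by
        rw [hβ, ← Real.rpow_natCast, ← Real.rpow_natCast, ← Real.rpow_mul (by norm_num),
          ← Real.rpow_mul (by norm_num), mul_comm]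
      rw [e1, pow_succ]
      have e2 : 0 ≤ β ^ k := by positivity
      calc M * (β ^ k * β) ≤ M * (β ^ k * 2) := by
            apply mul_le_mul_of_nonneg_left _ hM0
            exact mul_le_mul_of_nonneg_left hβ2 e2
        _ = 2 * (M * β ^ k) := by ring
    calc 2 * (Real.sqrt (512 * (6 * ((d : ℝ) / (m : ℝ) ^ 2) +
          7 * (1 / (m : ℝ)) * (1 / 2 : ℝ) ^ k)) * ((m : ℝ) * 2 ^ (k + 1)) ^ θ)
        ≤ 2 * ((56 * (Real.sqrt d / m) + 60 * (y ^ k / r)) * (2 * (M * β ^ k))) := by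
          apply mul_le_mul_of_nonneg_left _ (by norm_num)
          exact mul_le_mul h1 h2 (by positivity) (by positivity)
      _ = 224 * (Real.sqrt d / m) * M * β ^ k + 240 * (M / r) * (β * y) ^ k := by
          rw [mul_pow]
          ring
      _ = _ := by rw [hβy]
  refine (sum_le_sum fun k _ => hterm k).trans ?_
  rw [sum_add_distrib, ← mul_sum, ← mul_sum]
  have hg1 : ∑ k ∈ range (κ + 1), β ^ k ≤ 4 * M / (β - 1) := by
    have hb : 0 < β - 1 := by linarith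
    rw [le_div_iff₀ hb, geom_sum_mul]
    have e1 : β ^ κ ≤ 2 * M := by
      have e2 : β ^ κ = ((2 : ℝ) ^ κ) ^ θ := by
        rw [hβ, ← Real.rpow_natCast, ← Real.rpow_natCast, ← Real.rpow_mul (by norm_num),
          ← Real.rpow_mul (by norm_num), mul_comm]
      rw [e2]
      calc ((2 : ℝ) ^ κ) ^ θ ≤ (2 * (m : ℝ)) ^ θ :=
            Real.rpow_le_rpow (by positivity) hκ hθ0.le
        _ = β * M := by rw [Real.mul_rpow (by norm_num) hm0.le]
        _ ≤ 2 * M := mul_le_mul_of_nonneg_right hβ2 hM0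
    rw [pow_succ]
    have e3 : β ^ κ * β ≤ (2 * M) * 2 := mul_le_mul e1 hβ2 (by linarith) (by positivity)
    linarith
  have hg2 : ∑ k ∈ range (κ + 1), γ ^ k ≤ 1 / (1 - γ) := by
    have hb : 0 < 1 - γ := by linarith
    rw [le_div_iff₀ hb]
    have e1 := geom_sum_mul γ (κ + 1)
    have e2 : 0 ≤ γ ^ (κ + 1) := by positivity
    have e3 : (∑ k ∈ range (κ + 1), γ ^ k) * (1 - γ) = 1 - γ ^ (κ + 1) := by linarith
    rw [e3]
    linarith
  have hMr : M / r = (m : ℝ) ^ (-(1 / P)) := by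
    rw [hM, hr, Real.sqrt_eq_rpow, ← Real.rpow_sub hm0]
    congr 1
    rw [hθ]
    ring
  have hMM : Real.sqrt d / m * M * M ≤ (m : ℝ) ^ (-(1 / P)) := by
    have e1 : M * M = (m : ℝ) ^ (2 * θ) := by
      rw [hM, ← Real.rpow_add hm0]
      congr 1
      ring
    have e2 : (m : ℝ) ^ (2 * θ) / m = (m : ℝ) ^ (2 * θ - 1) := by
      rw [Real.rpow_sub hm0, Real.rpow_one]
    calc Real.sqrt d / m * M * M = Real.sqrt d * ((m : ℝ) ^ (2 * θ) / m) := by
          rw [mul_assoc, e1]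
          ring
      _ ≤ (m : ℝ) ^ (1 / P) * ((m : ℝ) ^ (2 * θ - 1)) := by
          rw [e2]
          exact mul_le_mul_of_nonneg_right hd (by positivity)
      _ = (m : ℝ) ^ (-(1 / P)) := by
          rw [← Real.rpow_add hm0]
          congr 1
          rw [hθ]
          ring
  have hb : 0 < β - 1 := by linarith
  have hc : 0 < 1 - γ := by linarith
  have hX : 0 ≤ Real.sqrt d / m := by positivity
  calc 224 * (Real.sqrt d / m) * M * (∑ k ∈ range (κ + 1), β ^ k) +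
        240 * (M / r) * (∑ k ∈ range (κ + 1), γ ^ k)
      ≤ 224 * (Real.sqrt d / m) * M * (4 * M / (β - 1)) + 240 * (M / r) * (1 / (1 - γ)) := by
        apply add_le_add
        · exact mul_le_mul_of_nonneg_left hg1 (by positivity)
        · exact mul_le_mul_of_nonneg_left hg2 (by positivity)
    _ = 896 / (β - 1) * (Real.sqrt d / m * M * M) + 240 / (1 - γ) * (M / r) := by ring
    _ ≤ 896 / (β - 1) * (m : ℝ) ^ (-(1 / P)) + 240 / (1 - γ) * (m : ℝ) ^ (-(1 / P)) := by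
        rw [hMr]
        apply add_le_add _ le_rfl
        exact mul_le_mul_of_nonneg_left hMM (by positivity)
    _ = CP P * (m : ℝ) ^ (-(1 / P)) := by
        rw [CP, ← hθ, ← hβ, ← hγ]
        ring

end Pool.Schatten.Rnd
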