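import Pool.Agent.Work.MP_9a3a53_rnd.Core
import Pool.Agent.Work.MP_9a3a53_rnd.Num

/-!
# The core estimate, conclusion
-/

set_option autoImplicit false
open Finset Module InnerProductSpace
open scoped ENNReal

namespace Pool.Schatten.Rnd

open Pool.Schatten

variable {N m l d : ℕ}

lemma cauchy3 {J J' : Type} {K : Finset J} {K' : Finset J'} (F G : J → J' → Fin d → ℝ) :
    |∑ a ∈ K, ∑ b ∈ K', ∑ i, F a b i * G a b i| ≤
      Real.sqrt (∑ a ∈ K, ∑ b ∈ K', ∑ i, F a b i ^ 2) *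
        Real.sqrt (∑ a ∈ K, ∑ b ∈ K', ∑ i, G a b i ^ 2) := by
  rw [← Real.sqrt_mul (sum_nonneg fun _ _ => sum_nonneg fun _ _ => sum_nonneg fun _ _ =>
    sq_nonneg _)]
  apply Real.abs_le_sqrt
  have h1 := sum_mul_sq_le_sq_mul_sq (K ×ˢ (K' ×ˢ (univ : Finset (Fin d))))
    (fun x => F x.1 x.2.1 x.2.2) (fun x => G x.1 x.2.1 x.2.2)
  simpa only [sum_product] using h1

/-- one block -/
lemma block_le {e : Fin m × Fin l → Fin N} (he : Function.Injective e)
    (A : Matrix (Fin N) (Fin N) ℝ) {h : Fin d → EuclideanSpace ℝ (Fin m × Fin m)}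
    (hh : Orthonormal ℝ h) {J J' : Type}
    {u : J → EuclideanSpace ℝ (Fin m)} {w : J → EuclideanSpace ℝ (Fin l)}
    {v : J' → EuclideanSpace ℝ (Fin m)} {z : J' → EuclideanSpace ℝ (Fin l)}
    (hw : Orthonormal ℝ w) (hz : Orthonormal ℝ z) {p : ℝ≥0∞} (hp : 2 ≤ p) (hp' : p ≠ ∞)
    (s : J → ℝ) (t : J' → ℝ) (K : Finset J) (K' : Finset J') {n : ℝ}
    (hn : (K.card : ℝ) ≤ n ∨ (K'.card : ℝ) ≤ n) (hn0 : 0 ≤ n) {S : ℝ}
    (hS : ∑ a ∈ K, ∑ b ∈ K', s a ^ 2 * t b ^ 2 * (∑ i, inner ℝ (h i) (tens (u a) (v b)) ^ 2) ≤ S) :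
    |∑ a ∈ K, ∑ b ∈ K', ∑ i, (s a * t b * inner ℝ (h i) (tens (u a) (v b))) *
      inner ℝ (h i) (Th e A (w a) (z b))| ≤
      Real.sqrt S * ((m : ℝ) * n) ^ (1 / 2 - 1 / p.toReal) * sNorm p A := by
  classical
  have hp1 : 1 ≤ p := le_trans (by norm_num) hp
  have hP : 2 ≤ p.toReal := by
    have := ENNReal.toReal_mono hp' hp
    simpa using this
  have hP0 : 0 < p.toReal := by linarith
  have hsn := sNorm_nonneg hp1 A
  refine (cauchy3 (fun a b i => s a * t b * inner ℝ (h i) (tens (u a) (v b)))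
    (fun a b i => inner ℝ (h i) (Th e A (w a) (z b)))).trans ?_
  have h1 : ∑ a ∈ K, ∑ b ∈ K', ∑ i, (s a * t b * inner ℝ (h i) (tens (u a) (v b))) ^ 2 ≤ S := by
    refine le_trans (le_of_eq ?_) hS
    apply sum_congr rfl
    intro a _
    apply sum_congr rfl
    intro b _
    rw [mul_sum]
    apply sum_congr rfl
    intro i _
    ring
  have hw' : Orthonormal ℝ (fun a : K => w a) := hw.comp _ Subtype.val_injective
  have hz' : Orthonormal ℝ (fun a : K' => z a) := hz.comp _ Subtype.val_injective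
  obtain ⟨h2, h3⟩ := sum_D_le he A hh hw' hz' hp hp'
  have e1 : ∑ a : K, ∑ b : K', ∑ i, inner ℝ (h i) (Th e A (w a) (z b)) ^ 2 =
      ∑ a ∈ K, ∑ b ∈ K', ∑ i, inner ℝ (h i) (Th e A (w a) (z b)) ^ 2 := by
    rw [← sum_coe_sort K (fun a => ∑ b ∈ K', ∑ i, inner ℝ (h i) (Th e A (w a) (z b)) ^ 2)]
    apply sum_congr rfl
    intro a _
    rw [← sum_coe_sort K' (fun b => ∑ i, inner ℝ (h i) (Th e A (w a) (z b)) ^ 2)]
  rw [e1, Fintype.card_coe] at h2 h3
  have hexp : 0 ≤ 1 - 2 / p.toReal := by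
    have : 2 / p.toReal ≤ 1 := by
      rw [div_le_one hP0]
      exact hP
    linarith
  have h4 : ∑ a ∈ K, ∑ b ∈ K', ∑ i, inner ℝ (h i) (Th e A (w a) (z b)) ^ 2 ≤
      ((m : ℝ) * n) ^ (1 - 2 / p.toReal) * sNorm p A ^ 2 := by
    rcases hn with hn | hn
    · refine h2.trans (mul_le_mul_of_nonneg_right ?_ (sq_nonneg _))
      exact Real.rpow_le_rpow (by positivity)
        (mul_le_mul_of_nonneg_left hn (Nat.cast_nonneg _)) hexp
    · refine h3.trans (mul_le_mul_of_nonneg_right ?_ (sq_nonneg _))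
      exact Real.rpow_le_rpow (by positivity)
        (mul_le_mul_of_nonneg_left hn (Nat.cast_nonneg _)) hexp
  have h5 : Real.sqrt (∑ a ∈ K, ∑ b ∈ K', ∑ i, inner ℝ (h i) (Th e A (w a) (z b)) ^ 2) ≤
      ((m : ℝ) * n) ^ (1 / 2 - 1 / p.toReal) * sNorm p A := by
    rw [Real.sqrt_le_left (by positivity)]
    refine h4.trans (le_of_eq ?_)
    rw [mul_pow, ← Real.rpow_natCast (((m : ℝ) * n) ^ (1 / 2 - 1 / p.toReal)) 2,
      ← Real.rpow_mul (by positivity)]
    congr 2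
    push_cast
    ring
  rw [mul_assoc]
  exact mul_le_mul (Real.sqrt_le_sqrt h1) h5 (Real.sqrt_nonneg _) (Real.sqrt_nonneg _)

/-- **the core estimate** -/
theorem core {e : Fin m × Fin l → Fin N} (he : Function.Injective e) (hm : 1 ≤ m)
    (A : Matrix (Fin N) (Fin N) ℝ) {h : Fin d → EuclideanSpace ℝ (Fin m × Fin m)}
    (hh : Orthonormal ℝ h) (hU : Unif m d h) {J J' : Type} [Fintype J] [Fintype J']
    {u : J → EuclideanSpace ℝ (Fin m)} {w : J → EuclideanSpace ℝ (Fin l)}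
    {v : J' → EuclideanSpace ℝ (Fin m)} {z : J' → EuclideanSpace ℝ (Fin l)}
    (hu : Orthonormal ℝ u) (hv : Orthonormal ℝ v)
    (hw : Orthonormal ℝ w) (hz : Orthonormal ℝ z) {p : ℝ≥0∞} (hp : 2 < p) (hp' : p ≠ ∞)
    (hd : Real.sqrt d ≤ (m : ℝ) ^ (1 / p.toReal))
    {s : J → ℝ} {t : J' → ℝ} (hs : ∑ a, s a ^ 2 ≤ 1) (ht : ∑ b, t b ^ 2 ≤ 1) :
    |∑ a, ∑ b, ∑ i, (s a * t b * inner ℝ (h i) (tens (u a) (v b))) *
      inner ℝ (h i) (Th e A (w a) (z b))| ≤
      CP p.toReal * (m : ℝ) ^ (-(1 / p.toReal)) * sNorm p A := by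
  classical
  have hp1 : 1 ≤ p := le_trans (by norm_num) hp.le
  have hP : 2 < p.toReal := by
    have := (ENNReal.toReal_lt_toReal (by norm_num) hp').2 hp
    simpa using this
  have hsn := sNorm_nonneg hp1 A
  set κ : ℕ := Nat.log 2 m + 1 with hκ
  have hκ1 : m ≤ 2 ^ κ := (Nat.lt_pow_succ_log_self (by norm_num) m).le
  have hκ2 : (2 : ℝ) ^ κ ≤ 2 * m := by
    have h1 : 2 ^ Nat.log 2 m ≤ m := Nat.pow_log_le_self 2 (by omega)
    rw [hκ, pow_succ]
    have h2 : (2 : ℝ) ^ Nat.log 2 m ≤ m := by exact_mod_cast h1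
    linarith
  have hJ : Fintype.card J ≤ 2 ^ κ := by
    have := hu.linearIndependent.fintype_card_le_finrank
    rw [finrank_euclideanSpace_fin] at this
    exact this.trans hκ1
  have hJ' : Fintype.card J' ≤ 2 ^ κ := by
    have := hv.linearIndependent.fintype_card_le_finrank
    rw [finrank_euclideanSpace_fin] at this
    exact this.trans hκ1
  obtain ⟨lev, hl1, hl2, hl3, hl4⟩ := exists_lev (w := fun a => s a ^ 2) (fun _ => sq_nonneg _) hs hJ
  obtain ⟨lev', hl1', hl2', hl3', hl4'⟩ := exists_lev (w := fun b => t b ^ 2)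
    (fun _ => sq_nonneg _) ht hJ'
  set c : J → J' → ℝ := fun a b => ∑ i, inner ℝ (h i) (tens (u a) (v b)) ^ 2 with hc
  have hc0 : ∀ a b, 0 ≤ c a b := fun a b => sum_nonneg fun _ _ => sq_nonneg _
  have hcU : ∀ (K : Finset J) (K' : Finset J'), ∑ a ∈ K, ∑ b ∈ K', c a b ≤
      512 * ((d : ℝ) / (m : ℝ) ^ 2 * K.card * K'.card + 1 / (m : ℝ) * (K.card + K'.card)) := by
    intro K K'
    have hu' : Orthonormal ℝ (fun a : K => u a) := hu.comp _ Subtype.val_injective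
    have hv' : Orthonormal ℝ (fun a : K' => v a) := hv.comp _ Subtype.val_injective
    have h1 := hU K K' _ _ hu' hv'
    rw [Fintype.card_coe, Fintype.card_coe] at h1
    have e1 : ∑ a : K, ∑ b : K', ∑ i, inner ℝ (h i) (tens (u a) (v b)) ^ 2 =
        ∑ a ∈ K, ∑ b ∈ K', c a b := by
      rw [← sum_coe_sort K (fun a => ∑ b ∈ K', c a b)]
      apply sum_congr rfl
      intro a _
      rw [← sum_coe_sort K' (fun b => c a b)]
    rw [e1] at h1
    refine h1.trans (le_of_eq ?_)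
    ring
  have hα : 0 ≤ (d : ℝ) / (m : ℝ) ^ 2 := by positivity
  have hβ : 0 ≤ 1 / (m : ℝ) := by positivity
  set B : ℕ → ℝ := fun k => 512 * (6 * ((d : ℝ) / (m : ℝ) ^ 2) +
      7 * (1 / (m : ℝ)) * (1 / 2 : ℝ) ^ k) with hB
  have hS1 : ∀ k, ∑ a ∈ univ.filter (fun a => lev a = k), ∑ b ∈ univ.filter (fun b => k ≤ lev' b),
      s a ^ 2 * t b ^ 2 * c a b ≤ B k := fun k =>
    strip_le hl1' (fun _ => sq_nonneg _) hl2 hl2' (hl3 k) hl4' hc0 hα hβ hcU
  have hS2 : ∀ k, ∑ a ∈ univ.filter (fun a => k < lev a), ∑ b ∈ univ.filter (fun b => lev' b = k),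
      s a ^ 2 * t b ^ 2 * c a b ≤ B k := by
    intro k
    have h1 := strip_le (c := fun b a => c a b) hl1 (fun _ => sq_nonneg _) hl2' hl2 (hl3' k) hl4
      (fun b a => hc0 a b) hα hβ (fun K K' => by
        rw [sum_comm]
        refine (hcU K' K).trans (le_of_eq ?_)
        ring)
    refine le_trans ?_ h1
    rw [sum_comm]
    apply sum_le_sum
    intro b _
    calc ∑ a ∈ univ.filter (fun a => k < lev a), s a ^ 2 * t b ^ 2 * c a b
        ≤ ∑ a ∈ univ.filter (fun a => k ≤ lev a), s a ^ 2 * t b ^ 2 * c a b := by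
          apply sum_le_sum_of_subset_of_nonneg
          · intro a ha
            rw [mem_filter] at ha ⊢
            exact ⟨ha.1, ha.2.le⟩
          · intro a _ _
            have := hc0 a b
            positivity
      _ = ∑ a ∈ univ.filter (fun a => k ≤ lev a), t b ^ 2 * s a ^ 2 * c a b := by
          apply sum_congr rfl
          intro a _
          ring
  have hcard : ∀ k, ((univ.filter fun a => lev a = k).card : ℝ) ≤ 2 ^ (k + 1) := by
    intro k
    have h1 := hl3 k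
    have h2 : (2 : ℝ) ^ k * (1 / 2 : ℝ) ^ k = 1 := by rw [← mul_pow]; norm_num
    calc ((univ.filter fun a => lev a = k).card : ℝ)
        = 2 ^ k * ((1 / 2 : ℝ) ^ k * (univ.filter fun a => lev a = k).card) := by
          rw [← mul_assoc, h2, one_mul]
      _ ≤ 2 ^ k * 2 := mul_le_mul_of_nonneg_left h1 (by positivity)
      _ = 2 ^ (k + 1) := by rw [pow_succ]
  have hcard' : ∀ k, ((univ.filter fun a => lev' a = k).card : ℝ) ≤ 2 ^ (k + 1) := by
    intro k
    have h1 := hl3' k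
    have h2 : (2 : ℝ) ^ k * (1 / 2 : ℝ) ^ k = 1 := by rw [← mul_pow]; norm_num
    calc ((univ.filter fun a => lev' a = k).card : ℝ)
        = 2 ^ k * ((1 / 2 : ℝ) ^ k * (univ.filter fun a => lev' a = k).card) := by
          rw [← mul_assoc, h2, one_mul]
      _ ≤ 2 ^ k * 2 := mul_le_mul_of_nonneg_left h1 (by positivity)
      _ = 2 ^ (k + 1) := by rw [pow_succ]
  rw [sum_levels lev lev' hl1 hl1']
  refine (abs_sum_le_sum_abs _ _).trans ?_
  have hk : ∀ k ∈ range (κ + 1), |(∑ a ∈ univ.filter (fun a => lev a = k),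
      ∑ b ∈ univ.filter (fun b => k ≤ lev' b), ∑ i,
        (s a * t b * inner ℝ (h i) (tens (u a) (v b))) * inner ℝ (h i) (Th e A (w a) (z b))) +
      ∑ a ∈ univ.filter (fun a => k < lev a), ∑ b ∈ univ.filter (fun b => lev' b = k), ∑ i,
        (s a * t b * inner ℝ (h i) (tens (u a) (v b))) * inner ℝ (h i) (Th e A (w a) (z b))| ≤
      2 * (Real.sqrt (B k) * ((m : ℝ) * 2 ^ (k + 1)) ^ (1 / 2 - 1 / p.toReal)) * sNorm p A := by
    intro k _
    refine (abs_add_le _ _).trans ?_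
    have h1 := block_le he A hh hw hz hp.le hp' s t _ _ (n := 2 ^ (k + 1)) (Or.inl (hcard k))
      (by positivity) (hS1 k)
    have h2 := block_le he A hh hw hz hp.le hp' s t _ _ (n := 2 ^ (k + 1)) (Or.inr (hcard' k))
      (by positivity) (hS2 k)
    linarith
  refine (sum_le_sum hk).trans ?_
  rw [← sum_mul]
  exact mul_le_mul_of_nonneg_right (numeric hP hm hκ2 hd) hsn

end Pool.Schatten.Rnd
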