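import Mathlib

/-!
# Nets in unit balls
-/

set_option autoImplicit false
open Finset Module

namespace Pool.Schatten.Rnd

variable {E : Type*} [NormedAddCommGroup E] [NormedSpace ℝ E] [FiniteDimensional ℝ E]

/-- separated sets in the unit ball -/
def Sep (s : Finset E) : Prop :=
  (∀ c ∈ s, ‖c‖ ≤ 1) ∧ ∀ c ∈ s, ∀ d ∈ s, c ≠ d → 1 / 2 ≤ ‖c - d‖

lemma card_le_of_sep [DecidableEq E] {s : Finset E} (hs : Sep s) : s.card ≤ 5 ^ finrank ℝ E := by
  have hinj : Function.Injective (fun x : E => (2 : ℝ) • x) := smul_right_injective E two_ne_zero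
  have h1 := Besicovitch.card_le_of_separated (s.image fun x : E => (2 : ℝ) • x) (by
    intro c hc
    obtain ⟨x, hx, rfl⟩ := mem_image.1 hc
    have := hs.1 x hx
    rw [norm_smul, Real.norm_ofNat]
    linarith) (by
    intro c hc d hd hcd
    obtain ⟨x, hx, rfl⟩ := mem_image.1 hc
    obtain ⟨y, hy, rfl⟩ := mem_image.1 hd
    have hxy : x ≠ y := fun h => hcd (by rw [h])
    have := hs.2 x hx y hy hxy
    rw [← smul_sub, norm_smul, Real.norm_ofNat]
    linarith)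
  rwa [card_image_of_injective _ hinj] at h1

/-- a half net of the unit ball -/
theorem exists_net (E : Type*) [NormedAddCommGroup E] [NormedSpace ℝ E] [FiniteDimensional ℝ E] :
    ∃ s : Finset E, (∀ c ∈ s, ‖c‖ ≤ 1) ∧ s.card ≤ 5 ^ finrank ℝ E ∧
      ∀ x : E, ‖x‖ ≤ 1 → ∃ c ∈ s, ‖x - c‖ ≤ 1 / 2 := by
  classical
  set P : ℕ → Prop := fun n => ∃ s : Finset E, Sep s ∧ s.card = n with hP
  have h0 : P 0 := ⟨∅, ⟨by simp, by simp⟩, rfl⟩
  obtain ⟨s, hs, hcard⟩ := Nat.findGreatest_spec (P := P) (Nat.zero_le (5 ^ finrank ℝ E)) h0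
  refine ⟨s, hs.1, card_le_of_sep hs, ?_⟩
  intro x hx
  by_contra hcon
  push Not at hcon
  have hxs : x ∉ s := by
    intro h
    have := hcon x h
    rw [sub_self, norm_zero] at this
    linarith
  have hsep : Sep (insert x s) := by
    refine ⟨?_, ?_⟩
    · intro c hc
      rcases mem_insert.1 hc with rfl | hc
      · exact hx
      · exact hs.1 c hc
    · intro c hc d hd hcd
      rcases mem_insert.1 hc with h1 | h1 <;> rcases mem_insert.1 hd with h2 | h2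
      · exact (hcd (h1.trans h2.symm)).elim
      · rw [h1]
        exact (hcon d h2).le
      · rw [h2, norm_sub_rev]
        exact (hcon c h1).le
      · exact hs.2 c h1 d h2 hcd
  have h1 : P (s.card + 1) := ⟨insert x s, hsep, card_insert_of_notMem hxs⟩
  have h2 : s.card + 1 ≤ 5 ^ finrank ℝ E := by
    have := card_le_of_sep hsep
    rwa [card_insert_of_notMem hxs] at this
  have h3 := Nat.le_findGreatest h2 h1
  omega

/-- linear maps bounded on a net -/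
theorem norm_le_of_net {F : Type*} [NormedAddCommGroup F] [NormedSpace ℝ F] {s : Finset E}
    (hs : ∀ x : E, ‖x‖ ≤ 1 → ∃ c ∈ s, ‖x - c‖ ≤ 1 / 2) (Φ : E →ₗ[ℝ] F) {M : ℝ} (hM0 : 0 ≤ M)
    (hM : ∀ c ∈ s, ‖Φ c‖ ≤ M) {x : E} (hx : ‖x‖ ≤ 1) : ‖Φ x‖ ≤ 2 * M := by
  set Ψ : E →L[ℝ] F := LinearMap.toContinuousLinearMap Φ with hΨ
  have hΨx : ∀ y, Ψ y = Φ y := fun y => rfl
  have h1 : ‖Ψ‖ ≤ M + ‖Ψ‖ / 2 := by
    apply ContinuousLinearMap.opNorm_le_of_unit_norm (by positivity)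
    intro y hy
    obtain ⟨c, hc, hyc⟩ := hs y hy.le
    have e1 : Ψ y = Φ c + Ψ (y - c) := by
      rw [hΨx, hΨx, map_sub]
      abel
    rw [e1]
    refine (norm_add_le _ _).trans ?_
    have h2 := hM c hc
    have h3 := Ψ.le_opNorm (y - c)
    have h4 : ‖Ψ‖ * ‖y - c‖ ≤ ‖Ψ‖ * (1 / 2) := mul_le_mul_of_nonneg_left hyc (norm_nonneg _)
    linarith
  have h2 : ‖Ψ‖ ≤ 2 * M := by linarith
  rw [← hΨx]
  refine (Ψ.le_opNorm x).trans ?_
  calc ‖Ψ‖ * ‖x‖ ≤ ‖Ψ‖ * 1 := mul_le_mul_of_nonneg_left hx (norm_nonneg _)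
    _ ≤ 2 * M := by linarith

end Pool.Schatten.Rnd
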