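import Pool.Agent.Work.MP_9a3a53_rnd.Gauss
import Pool.Agent.Work.MP_9a3a53_rnd.Net

/-!
# Random sign matrices: a uniform estimate
-/

set_option autoImplicit false
open Finset Module
open scoped Matrix.Norms.L2Operator

namespace Pool.Schatten.Rnd

variable {m d : ℕ}

/-- the bits of a sign matrix -/
abbrev Bits (m : ℕ) : Type := Fin m × Fin m → Bool

/-- the quadratic quantity -/
noncomputable def Q {r s : ℕ} (ω : Fin d → Bits m) (U : Matrix (Fin r) (Fin m) ℝ)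
    (V : Matrix (Fin m) (Fin s) ℝ) : ℝ :=
  ∑ i, ∑ k : Fin r × Fin s, (∑ x : Fin m × Fin m, (U k.1 x.1 * V x.2 k.2) * sg (ω i x)) ^ 2

lemma Q_nonneg {r s : ℕ} (ω : Fin d → Bits m) (U : Matrix (Fin r) (Fin m) ℝ)
    (V : Matrix (Fin m) (Fin s) ℝ) : 0 ≤ Q ω U V :=
  sum_nonneg fun _ _ => sum_nonneg fun _ _ => sq_nonneg _

/-- contractions -/
lemma contr {a b : ℕ} {V : Matrix (Fin a) (Fin b) ℝ} (hV : ‖V‖ ≤ 1) (c : Fin b → ℝ) :
    ∑ y, (∑ x, V y x * c x) ^ 2 ≤ ∑ x, c x ^ 2 := by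
  have h1 := Matrix.l2_opNorm_mulVec V (WithLp.toLp 2 c)
  have h2 : ‖V‖ * ‖(WithLp.toLp 2 c : EuclideanSpace ℝ (Fin b))‖ ≤
      1 * ‖(WithLp.toLp 2 c : EuclideanSpace ℝ (Fin b))‖ :=
    mul_le_mul_of_nonneg_right hV (norm_nonneg _)
  rw [one_mul] at h2
  have h3 := h1.trans h2
  have h4 := pow_le_pow_left₀ (norm_nonneg _) h3 2
  rw [EuclideanSpace.norm_sq_eq, EuclideanSpace.norm_sq_eq] at h4
  simp only [Real.norm_eq_abs, sq_abs] at h4
  exact h4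

lemma contr_T {a b : ℕ} {U : Matrix (Fin a) (Fin b) ℝ} (hU : ‖U‖ ≤ 1) (c : Fin a → ℝ) :
    ∑ y, (∑ x, U x y * c x) ^ 2 ≤ ∑ x, c x ^ 2 := by
  have h1 : ‖U.transpose‖ ≤ 1 := by
    rw [← Matrix.conjTranspose_eq_transpose_of_trivial, Matrix.l2_opNorm_conjTranspose]
    exact hU
  exact contr h1 c

lemma contr_two {r s : ℕ} {U : Matrix (Fin r) (Fin m) ℝ} {V : Matrix (Fin m) (Fin s) ℝ}
    (hU : ‖U‖ ≤ 1) (hV : ‖V‖ ≤ 1) (g : Fin r × Fin s → ℝ) :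
    ∑ x : Fin m × Fin m, (∑ k : Fin r × Fin s, (U k.1 x.1 * V x.2 k.2) * g k) ^ 2 ≤
      ∑ k, g k ^ 2 := by
  have e1 : ∀ x : Fin m × Fin m, ∑ k : Fin r × Fin s, (U k.1 x.1 * V x.2 k.2) * g k =
      ∑ a, U a x.1 * (∑ b, V x.2 b * g (a, b)) := by
    intro x
    rw [Fintype.sum_prod_type]
    apply sum_congr rfl
    intro a _
    rw [mul_sum]
    apply sum_congr rfl
    intro b _
    ring
  simp only [e1]
  rw [Fintype.sum_prod_type_right, Fintype.sum_prod_type]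
  calc ∑ y, ∑ x, (∑ a, U a x * ∑ b, V y b * g (a, b)) ^ 2
      ≤ ∑ y, ∑ a, (∑ b, V y b * g (a, b)) ^ 2 := sum_le_sum fun y _ => contr_T hU _
    _ = ∑ a, ∑ y, (∑ b, V y b * g (a, b)) ^ 2 := sum_comm
    _ ≤ ∑ a, ∑ b, g (a, b) ^ 2 := sum_le_sum fun a _ => contr hV _

lemma sum_exp_Q {r s : ℕ} {U : Matrix (Fin r) (Fin m) ℝ} {V : Matrix (Fin m) (Fin s) ℝ}
    (hU : ‖U‖ ≤ 1) (hV : ‖V‖ ≤ 1) :
    ∑ ω : Fin d → Bits m, Real.exp (Q ω U V / 4) ≤
      (2 ^ (m * m) * Real.sqrt 2 ^ (r * s)) ^ d := by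
  have h1 : ∑ ω : Fin d → Bits m, Real.exp (Q ω U V / 4) =
      ∏ _i : Fin d, ∑ η : Bits m, Real.exp ((∑ k : Fin r × Fin s,
        (∑ x : Fin m × Fin m, (U k.1 x.1 * V x.2 k.2) * sg (η x)) ^ 2) / 4) := by
    rw [prod_univ_sum, Fintype.piFinset_univ]
    apply sum_congr rfl
    intro ω _
    rw [← Real.exp_sum, Q, sum_div]
  rw [h1]
  have h2 := exp_moment (ι := Fin m × Fin m) (κ := Fin r × Fin s)
    (fun k x => U k.1 x.1 * V x.2 k.2) (contr_two hU hV)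
  simp only [Fintype.card_prod, Fintype.card_fin] at h2
  calc _ ≤ ∏ _i : Fin d, (2 ^ (m * m) * Real.sqrt 2 ^ (r * s) : ℝ) := by
        apply prod_le_prod
        · intro i _
          exact sum_nonneg fun _ _ => (Real.exp_pos _).le
        · intro i _
          exact h2
    _ = _ := by rw [prod_const, card_univ, Fintype.card_fin]

/-- the linear map in the second variable -/
noncomputable def PhiV {r s : ℕ} (ω : Fin d → Bits m) (U : Matrix (Fin r) (Fin m) ℝ) :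
    Matrix (Fin m) (Fin s) ℝ →ₗ[ℝ] EuclideanSpace ℝ (Fin d × (Fin r × Fin s)) where
  toFun V := WithLp.toLp 2 fun k => ∑ x : Fin m × Fin m, (U k.2.1 x.1 * V x.2 k.2.2) * sg (ω k.1 x)
  map_add' V W := by
    ext k
    simp only [Matrix.add_apply, PiLp.add_apply]
    rw [← sum_add_distrib]
    exact sum_congr rfl fun x _ => by ring
  map_smul' c V := by
    ext k
    simp only [Matrix.smul_apply, PiLp.smul_apply, smul_eq_mul, RingHom.id_apply]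
    rw [mul_sum]
    exact sum_congr rfl fun x _ => by ring

/-- the linear map in the first variable -/
noncomputable def PhiU {r s : ℕ} (ω : Fin d → Bits m) (V : Matrix (Fin m) (Fin s) ℝ) :
    Matrix (Fin r) (Fin m) ℝ →ₗ[ℝ] EuclideanSpace ℝ (Fin d × (Fin r × Fin s)) where
  toFun U := WithLp.toLp 2 fun k => ∑ x : Fin m × Fin m, (U k.2.1 x.1 * V x.2 k.2.2) * sg (ω k.1 x)
  map_add' V W := by
    ext k
    simp only [Matrix.add_apply, PiLp.add_apply]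
    rw [← sum_add_distrib]
    exact sum_congr rfl fun x _ => by ring
  map_smul' c V := by
    ext k
    simp only [Matrix.smul_apply, PiLp.smul_apply, smul_eq_mul, RingHom.id_apply]
    rw [mul_sum]
    exact sum_congr rfl fun x _ => by ring

lemma norm_PhiV {r s : ℕ} (ω : Fin d → Bits m) (U : Matrix (Fin r) (Fin m) ℝ)
    (V : Matrix (Fin m) (Fin s) ℝ) : ‖PhiV ω U V‖ ^ 2 = Q ω U V := by
  rw [EuclideanSpace.norm_sq_eq, Fintype.sum_prod_type]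
  simp only [Real.norm_eq_abs, sq_abs]
  rfl

lemma norm_PhiU {r s : ℕ} (ω : Fin d → Bits m) (U : Matrix (Fin r) (Fin m) ℝ)
    (V : Matrix (Fin m) (Fin s) ℝ) : ‖PhiU ω V U‖ ^ 2 = Q ω U V := by
  rw [EuclideanSpace.norm_sq_eq, Fintype.sum_prod_type]
  simp only [Real.norm_eq_abs, sq_abs]
  rfl

/-- from the nets to the balls -/
lemma Q_le_of_net {r s : ℕ} (ω : Fin d → Bits m) {A : Finset (Matrix (Fin r) (Fin m) ℝ)}
    {B : Finset (Matrix (Fin m) (Fin s) ℝ)}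
    (hA : ∀ x : Matrix (Fin r) (Fin m) ℝ, ‖x‖ ≤ 1 → ∃ c ∈ A, ‖x - c‖ ≤ 1 / 2)
    (hB : ∀ x : Matrix (Fin m) (Fin s) ℝ, ‖x‖ ≤ 1 → ∃ c ∈ B, ‖x - c‖ ≤ 1 / 2)
    {T : ℝ} (hT : 0 ≤ T) (hAB : ∀ U ∈ A, ∀ V ∈ B, Q ω U V ≤ T) {U : Matrix (Fin r) (Fin m) ℝ}
    {V : Matrix (Fin m) (Fin s) ℝ} (hU : ‖U‖ ≤ 1) (hV : ‖V‖ ≤ 1) : Q ω U V ≤ 16 * T := by
  have h1 : ∀ U ∈ A, ‖PhiV ω U V‖ ≤ 2 * Real.sqrt T := by
    intro U hUA
    apply norm_le_of_net hB _ (Real.sqrt_nonneg _) _ hV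
    intro c hc
    apply Real.le_sqrt_of_sq_le
    rw [norm_PhiV]
    exact hAB U hUA c hc
  have h2 : ‖PhiU ω V U‖ ≤ 2 * (2 * Real.sqrt T) := by
    apply norm_le_of_net hA _ (by positivity) _ hU
    intro c hc
    have e : ‖PhiU ω V c‖ = ‖PhiV ω c V‖ := by
      have e1 := norm_PhiU ω c V
      rw [← norm_PhiV ω c V] at e1
      exact (pow_left_inj₀ (norm_nonneg _) (norm_nonneg _) two_ne_zero).1 e1
    rw [e]
    exact h1 c hc
  rw [← norm_PhiU]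
  calc ‖PhiU ω V U‖ ^ 2 ≤ (2 * (2 * Real.sqrt T)) ^ 2 := pow_le_pow_left₀ (norm_nonneg _) h2 2
    _ = 16 * Real.sqrt T ^ 2 := by ring
    _ = 16 * T := by rw [Real.sq_sqrt hT]

/-- the Gram sum -/
noncomputable def Gr (ω : Fin d → Bits m) : ℝ :=
  ∑ i, ∑ j ∈ univ.erase i, (∑ x, sg (ω j x) * sg (ω i x)) ^ 2

lemma Gr_nonneg (ω : Fin d → Bits m) : 0 ≤ Gr ω :=
  sum_nonneg fun _ _ => sum_nonneg fun _ _ => sq_nonneg _

lemma sum_pair {i j : Fin d} (hij : j ≠ i) :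
    ∑ ω : Fin d → Bits m, (∑ x, sg (ω j x) * sg (ω i x)) ^ 2 ≤
      Fintype.card (Fin d → Bits m) * (2 * (m : ℝ) ^ 2) := by
  set e := Equiv.funSplitAt i (Bits m) with he
  have h1 : ∑ ω : Fin d → Bits m, (∑ x, sg (ω j x) * sg (ω i x)) ^ 2 =
      ∑ y : Bits m × ({k // k ≠ i} → Bits m), (∑ x, sg (y.2 ⟨j, hij⟩ x) * sg (y.1 x)) ^ 2 := by
    apply Fintype.sum_equiv e
    intro ω
    rfl
  rw [h1, Fintype.sum_prod_type_right]
  have h2 : ∀ y : {k // k ≠ i} → Bits m, ∑ η : Bits m, (∑ x, sg (y ⟨j, hij⟩ x) * sg (η x)) ^ 2 ≤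
      2 ^ (m * m) * (2 * (m : ℝ) ^ 2) := by
    intro y
    have h3 := second_moment (ι := Fin m × Fin m) (fun x => sg (y ⟨j, hij⟩ x))
    simp only [sg_sq, sum_const, card_univ, Fintype.card_prod, Fintype.card_fin, nsmul_eq_mul,
      mul_one] at h3
    push_cast at h3
    have e : (2 : ℝ) ^ (m * m) * (2 * (m : ℝ) ^ 2) = 2 ^ (m * m) * (2 * ((m : ℝ) * m)) := by ring
    rw [e]
    exact h3
  refine (sum_le_sum fun y _ => h2 y).trans ?_
  rw [sum_const, card_univ, nsmul_eq_mul, Fintype.card_congr e, Fintype.card_prod]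
  have h4 : Fintype.card (Bits m) = 2 ^ (m * m) := by simp
  rw [h4]
  push_cast
  apply le_of_eq
  ring

lemma sum_Gr : ∑ ω : Fin d → Bits m, Gr ω ≤
    Fintype.card (Fin d → Bits m) * (2 * (m : ℝ) ^ 2 * (d : ℝ) ^ 2) := by
  unfold Gr
  rw [sum_comm]
  have h1 : ∀ i : Fin d, ∑ ω : Fin d → Bits m, ∑ j ∈ univ.erase i,
      (∑ x, sg (ω j x) * sg (ω i x)) ^ 2 ≤
      d * (Fintype.card (Fin d → Bits m) * (2 * (m : ℝ) ^ 2)) := by
    intro i
    rw [sum_comm]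
    calc ∑ j ∈ univ.erase i, ∑ ω : Fin d → Bits m, (∑ x, sg (ω j x) * sg (ω i x)) ^ 2
        ≤ ∑ j ∈ univ.erase i, (Fintype.card (Fin d → Bits m) * (2 * (m : ℝ) ^ 2)) := by
          apply sum_le_sum
          intro j hj
          exact sum_pair (mem_erase.1 hj).1
      _ ≤ ∑ _j : Fin d, (Fintype.card (Fin d → Bits m) * (2 * (m : ℝ) ^ 2)) := by
          apply sum_le_sum_of_subset_of_nonneg (subset_univ _)
          intro _ _ _
          positivity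
      _ = _ := by rw [sum_const, card_univ, Fintype.card_fin, nsmul_eq_mul]
  refine (sum_le_sum fun i _ => h1 i).trans ?_
  rw [sum_const, card_univ, Fintype.card_fin, nsmul_eq_mul]
  apply le_of_eq
  ring

end Pool.Schatten.Rnd
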